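import Mathlib
import Pool.Agent.H165R3.Birk

set_option autoImplicit false

/-!
# A combinatorial criterion for the failure of the Khintchin property

`Rich lam`: there are finite sets `S, Z` of positive integers with `|Z| ≥ C |S|` such that every `z ∈ Z` has an `N ≥ n₀`
for which at least half of the `n ≤ N` satisfy `z ∈ lam n * S`. This forces the averages along `lam` to diverge for an
indicator function.
-/

namespace Pool.Agent.Q183.Khin

open MeasureTheory Filter Topology Set
open scoped ENNReal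

instance isProb : IsProbabilityMeasure (volume : Measure UnitAddCircle) := ⟨UnitAddCircle.measure_univ⟩

theorem mp_nsmul {k : ℕ} (hk : 0 < k) :
    MeasurePreserving (fun x : UnitAddCircle => k • x) volume volume := by
  have h := MeasureTheory.Measure.measurePreserving_zsmul (volume : Measure UnitAddCircle) (n := (k : ℤ))
    (by exact_mod_cast hk.ne')
  simpa using h

theorem sqrt_ne {k l : ℕ} (hkl : k ≠ l) :
    l • ((Real.sqrt 2 : ℝ) : UnitAddCircle) ≠ k • ((Real.sqrt 2 : ℝ) : UnitAddCircle) := by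
  intro h
  have e1 : ∀ m : ℕ, (((m : ℝ) * Real.sqrt 2 : ℝ) : UnitAddCircle) = m • ((Real.sqrt 2 : ℝ) : UnitAddCircle) := by
    intro m
    rw [← nsmul_eq_mul, AddCircle.coe_nsmul]
  have h1 : (((l : ℝ) * Real.sqrt 2 - (k : ℝ) * Real.sqrt 2 : ℝ) : UnitAddCircle) = 0 := by
    rw [AddCircle.coe_sub, e1, e1, h, sub_self]
  rw [AddCircle.coe_eq_zero_iff] at h1
  obtain ⟨n, hn⟩ := h1
  have h2 : ((l : ℝ) - k) * Real.sqrt 2 = n := by
    rw [zsmul_eq_mul, mul_one] at hn
    rw [hn]; ring
  have hne : ((l : ℤ) - k) ≠ 0 := by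
    intro h3
    apply hkl
    omega
  have h3 : Irrational ((((l : ℤ) - k : ℤ) : ℝ) * Real.sqrt 2) := irrational_sqrt_two.intCast_mul hne
  refine h3 ⟨n, ?_⟩
  push_cast
  exact h2.symm

/-- a small open set whose preimages under finitely many multiplications are disjoint -/
theorem exists_base (F : Finset ℕ) : ∃ B : Set UnitAddCircle, IsOpen B ∧ B.Nonempty ∧
    ∀ k ∈ F, ∀ l ∈ F, k ≠ l → ∀ x : UnitAddCircle, k • x ∈ B → l • x ∉ B := by
  set x₀ : UnitAddCircle := ((Real.sqrt 2 : ℝ) : UnitAddCircle) with hx₀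
  set U : Set (UnitAddCircle × UnitAddCircle) :=
    ⋂ k ∈ F, ⋂ l ∈ F, {u | k = l ∨ l • u.1 ≠ k • u.2} with hU
  have hopen : IsOpen U := by
    refine isOpen_biInter_finset fun k _ => isOpen_biInter_finset fun l _ => ?_
    by_cases hkl : k = l
    · simp [hkl]
    · simp only [hkl, false_or]
      exact isOpen_ne_fun (by fun_prop) (by fun_prop)
  have hmem : (x₀, x₀) ∈ U := by
    simp only [hU, mem_iInter, mem_ofPred_eq]
    intro k _ l _
    by_cases hkl : k = l
    · exact Or.inl hkl
    · exact Or.inr (sqrt_ne hkl)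
  obtain ⟨V₁, V₂, h1, h2, h3, h4, h5⟩ := isOpen_prod_iff.mp hopen x₀ x₀ hmem
  refine ⟨V₁ ∩ V₂, h1.inter h2, ⟨x₀, h3, h4⟩, ?_⟩
  intro k hk l hl hkl x hx hx'
  have h6 : (k • x, l • x) ∈ U := h5 ⟨hx.1, hx'.2⟩
  simp only [hU, mem_iInter, mem_ofPred_eq] at h6
  rcases h6 k hk l hl with h | h
  · exact hkl h
  · apply h
    rw [smul_smul, smul_smul, mul_comm]

/-- a multiplication under which `G` meets `A` in the expected proportion (up to `1/2`) -/
theorem exists_mult {A G : Set UnitAddCircle} (_hA : MeasurableSet A) (hG : MeasurableSet G) :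
    ∃ q : ℕ, 0 < q ∧ (1 / 2) * (volume.real A * volume.real G) ≤ volume.real (A ∩ (fun x => q • x) ⁻¹' G) := by
  by_cases h0 : volume.real A * volume.real G = 0
  · exact ⟨1, one_pos, by rw [h0, mul_zero]; exact measureReal_nonneg⟩
  have hpos : 0 < volume.real A * volume.real G :=
    lt_of_le_of_ne (mul_nonneg measureReal_nonneg measureReal_nonneg) (Ne.symm h0)
  have herg : Ergodic (fun x : UnitAddCircle => 2 • x) volume := AddCircle.ergodic_nsmul (by norm_num)
  have hb := Pool.Agent.H165R3.birkhoff herg (G.indicator fun _ => (1 : ℝ)) (measurable_const.indicator hG)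
    ⟨1, fun x => by
      rw [abs_of_nonneg (indicator_nonneg (fun _ _ => zero_le_one) x)]
      exact indicator_le_self' (fun _ _ => zero_le_one) x⟩
  have hiter : ∀ k : ℕ, ∀ x : UnitAddCircle, (fun x : UnitAddCircle => 2 • x)^[k] x = (2 ^ k) • x := by
    intro k x
    induction k with
    | zero => simp
    | succ k ih => rw [Function.iterate_succ_apply', ih, smul_smul, pow_succ']
  -- integrate over A
  have hint : Tendsto (fun n : ℕ => ∫ x in A, (n : ℝ)⁻¹ * ∑ k ∈ Finset.range n,
      (G.indicator fun _ => (1 : ℝ)) ((fun x : UnitAddCircle => 2 • x)^[k] x)) atTop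
      (𝓝 (∫ x in A, (∫ y, (G.indicator fun _ => (1 : ℝ)) y))) := by
    refine tendsto_integral_of_dominated_convergence (fun _ => (1 : ℝ)) ?_ (integrable_const _) ?_ ?_
    · intro n
      refine Measurable.aestronglyMeasurable ?_
      refine measurable_const.mul (Finset.measurable_fun_sum _ fun k _ => ?_)
      exact (measurable_const.indicator hG).comp (herg.measurable.iterate k)
    · intro n
      refine ae_of_all _ fun x => ?_
      have h1 : ∑ k ∈ Finset.range n, (G.indicator fun _ => (1 : ℝ)) ((fun x : UnitAddCircle => 2 • x)^[k] x) ≤ n := by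
        calc _ ≤ ∑ _k ∈ Finset.range n, (1 : ℝ) :=
              Finset.sum_le_sum fun k _ => indicator_le_self' (fun _ _ => zero_le_one) _
          _ = n := by simp
      have h2 : 0 ≤ ∑ k ∈ Finset.range n, (G.indicator fun _ => (1 : ℝ)) ((fun x : UnitAddCircle => 2 • x)^[k] x) :=
        Finset.sum_nonneg fun k _ => indicator_nonneg (fun _ _ => zero_le_one) _
      rw [Real.norm_of_nonneg (mul_nonneg (by positivity) h2)]
      rcases Nat.eq_zero_or_pos n with hn | hn
      · simp [hn]
      · rw [inv_mul_le_iff₀ (by exact_mod_cast hn), mul_one]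
        exact h1
    · exact ae_restrict_of_ae hb
  have hlim : ∫ x in A, (∫ y, (G.indicator fun _ => (1 : ℝ)) y) = volume.real A * volume.real G := by
    rw [setIntegral_const, smul_eq_mul, integral_indicator_const _ hG]
    simp
  rw [hlim] at hint
  have hev := hint.eventually (lt_mem_nhds (show (1 / 2) * (volume.real A * volume.real G) <
    volume.real A * volume.real G by linarith))
  obtain ⟨n, hn, hn1⟩ := (hev.and (eventually_ge_atTop 1)).exists
  have hn' : (0 : ℝ) < n := by exact_mod_cast hn1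
  have heq : ∫ x in A, (n : ℝ)⁻¹ * ∑ k ∈ Finset.range n,
      (G.indicator fun _ => (1 : ℝ)) ((fun x : UnitAddCircle => 2 • x)^[k] x) =
      (n : ℝ)⁻¹ * ∑ k ∈ Finset.range n, volume.real (A ∩ (fun x : UnitAddCircle => (2 ^ k) • x) ⁻¹' G) := by
    rw [integral_const_mul, integral_finsetSum]
    · congr 1
      refine Finset.sum_congr rfl fun k _ => ?_
      have h1 : (fun x : UnitAddCircle => (G.indicator fun _ => (1 : ℝ)) ((fun x : UnitAddCircle => 2 • x)^[k] x)) =
          ((fun x : UnitAddCircle => (2 ^ k) • x) ⁻¹' G).indicator fun _ => (1 : ℝ) := by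
        ext x
        rw [hiter]
        rfl
      have hm : MeasurableSet ((fun x : UnitAddCircle => (2 ^ k) • x) ⁻¹' G) :=
        (mp_nsmul (by positivity)).measurable hG
      rw [h1, integral_indicator_const _ hm, smul_eq_mul, mul_one, measureReal_restrict_apply hm, inter_comm]
    · intro k _
      refine Integrable.mono' (integrable_const (1 : ℝ)) ?_ (ae_of_all _ fun x => ?_)
      · exact ((measurable_const.indicator hG).comp (herg.measurable.iterate k)).aestronglyMeasurable
      · rw [Real.norm_of_nonneg (indicator_nonneg (fun _ _ => zero_le_one) _)]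
        exact indicator_le_self' (fun _ _ => zero_le_one) _
  rw [heq] at hn
  by_contra hcon
  push Not at hcon
  have : (n : ℝ)⁻¹ * ∑ k ∈ Finset.range n, volume.real (A ∩ (fun x : UnitAddCircle => (2 ^ k) • x) ⁻¹' G) ≤
      (n : ℝ)⁻¹ * ∑ _k ∈ Finset.range n, (1 / 2) * (volume.real A * volume.real G) := by
    refine mul_le_mul_of_nonneg_left (Finset.sum_le_sum fun k _ => ?_) (by positivity)
    exact (hcon (2 ^ k) (by positivity)).le
  rw [Finset.sum_const, Finset.card_range, nsmul_eq_mul, ← mul_assoc, inv_mul_cancel₀ hn'.ne', one_mul] at this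
  linarith

/-- greedy covering by preimages of `G` -/
theorem exists_cover {G : Set UnitAddCircle} (hG : MeasurableSet G) (m : ℕ) :
    ∃ Q : Finset ℕ, Q.card ≤ m ∧ (∀ q ∈ Q, 0 < q) ∧
      volume.real (⋂ q ∈ Q, (fun x : UnitAddCircle => q • x) ⁻¹' Gᶜ) ≤ (1 - volume.real G / 2) ^ m := by
  induction m with
  | zero => exact ⟨∅, by simp, by simp, by simp⟩
  | succ m ih =>
    obtain ⟨Q, h1, h2, h3⟩ := ih
    set A := ⋂ q ∈ Q, (fun x : UnitAddCircle => q • x) ⁻¹' Gᶜ with hA
    have hAm : MeasurableSet A := Finset.measurableSet_biInter _ fun q hq =>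
      (mp_nsmul (h2 q hq)).measurable hG.compl
    obtain ⟨q, hq0, hq⟩ := exists_mult hAm hG
    classical
    refine ⟨insert q Q, (Finset.card_insert_le _ _).trans (by omega), ?_, ?_⟩
    · intro r hr
      rcases Finset.mem_insert.mp hr with h | h
      · rw [h]; exact hq0
      · exact h2 r h
    · have hGq : MeasurableSet ((fun x : UnitAddCircle => q • x) ⁻¹' G) := (mp_nsmul hq0).measurable hG
      have e1 : (⋂ r ∈ insert q Q, (fun x : UnitAddCircle => r • x) ⁻¹' Gᶜ) =
          A \ (A ∩ (fun x : UnitAddCircle => q • x) ⁻¹' G) := by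
        rw [Finset.set_biInter_insert, ← hA]
        ext x
        simp only [mem_inter_iff, mem_preimage, mem_compl_iff, Set.mem_sdiff]
        tauto
      rw [e1, measureReal_sdiff inter_subset_left (hAm.inter hGq)]
      have hG1 : volume.real G ≤ 1 := measureReal_le_one
      have hA0 : (0 : ℝ) ≤ volume.real A := measureReal_nonneg
      calc volume.real A - volume.real (A ∩ (fun x : UnitAddCircle => q • x) ⁻¹' G)
          ≤ (1 - volume.real G / 2) * volume.real A := by linarith
        _ ≤ (1 - volume.real G / 2) * (1 - volume.real G / 2) ^ m :=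
            mul_le_mul_of_nonneg_left h3 (by linarith)
        _ = _ := by rw [pow_succ]; ring

/-- the combinatorial condition -/
def Rich (lam : ℕ → ℕ) : Prop := ∀ C n₀ : ℕ, ∃ S Z : Finset ℕ, 0 < Z.card ∧ C * S.card ≤ Z.card ∧
  (∀ z ∈ Z, 0 < z) ∧ ∀ z ∈ Z, ∃ N, n₀ ≤ N ∧ 0 < N ∧
    N ≤ 2 * ((Finset.Icc 1 N).filter fun n => ∃ s ∈ S, s * lam n = z).card

/-- the averages of an indicator function -/
noncomputable def avI (lam : ℕ → ℕ) (E : Set UnitAddCircle) (N : ℕ) (x : UnitAddCircle) : ℝ :=
  (1 / (N : ℝ)) * ∑ n ∈ Finset.Icc 1 N, E.indicator (fun _ => (1 : ℝ)) (lam n • x)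

theorem avI_mono (lam : ℕ → ℕ) {E F : Set UnitAddCircle} (h : E ⊆ F) (N : ℕ) (x : UnitAddCircle) :
    avI lam E N x ≤ avI lam F N x := by
  refine mul_le_mul_of_nonneg_left (Finset.sum_le_sum fun n _ => ?_) (by positivity)
  exact indicator_le_indicator_of_subset h (fun _ => zero_le_one) _

/-- One stage: a set of small measure with large maximal function. -/
theorem stage {lam : ℕ → ℕ} (hR : Rich lam) {ε : ℝ} (hε : 0 < ε) (n₀ : ℕ) :
    ∃ E : Set UnitAddCircle, MeasurableSet E ∧ volume.real E ≤ ε ∧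
      ∃ H : Set UnitAddCircle, MeasurableSet H ∧ volume.real Hᶜ ≤ ε ∧ ∀ x ∈ H, ∃ N, n₀ ≤ N ∧ 1 / 2 ≤ avI lam E N x := by
  -- constants
  obtain ⟨k, hk⟩ : ∃ k : ℕ, (1 / 2 : ℝ) ^ k ≤ ε := by
    obtain ⟨k, hk⟩ := exists_pow_lt_of_lt_one hε (by norm_num : (1 / 2 : ℝ) < 1)
    exact ⟨k, hk.le⟩
  obtain ⟨C, hC⟩ : ∃ C : ℕ, ((2 * k + 1 : ℕ) : ℝ) ≤ ε * C := by
    obtain ⟨C, hC⟩ := exists_nat_ge (((2 * k + 1 : ℕ) : ℝ) / ε)
    refine ⟨C, ?_⟩
    rw [div_le_iff₀ hε] at hC
    linarith
  obtain ⟨S, Z, hZ, hSZ, hZpos, hzN⟩ := hR (C + 1) n₀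
  classical
  obtain ⟨B, hBo, hBne, hBdisj⟩ := exists_base Z
  have hBm : MeasurableSet B := hBo.measurableSet
  set b := volume.real B with hb
  have hbpos : 0 < b := by
    rw [hb, measureReal_def]
    exact ENNReal.toReal_pos (hBo.measure_pos volume hBne).ne' (measure_ne_top _ _)
  have hmeas : ∀ k : ℕ, 0 < k → volume.real ((fun x : UnitAddCircle => k • x) ⁻¹' B) = b := by
    intro k hk
    rw [hb, measureReal_def, (mp_nsmul hk).measure_preimage hBm.nullMeasurableSet, ← measureReal_def]
  have hmeas' : ∀ k : ℕ, MeasurableSet ((fun x : UnitAddCircle => k • x) ⁻¹' B) := by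
    intro k
    exact (by fun_prop : Continuous fun x : UnitAddCircle => k • x).measurable hBm
  set G := ⋃ z ∈ Z, (fun x : UnitAddCircle => z • x) ⁻¹' B with hG
  have hGm : MeasurableSet G := Finset.measurableSet_biUnion _ fun z _ => hmeas' z
  have hGr : volume.real G = Z.card * b := by
    rw [hG, measureReal_biUnion_finset]
    · rw [Finset.sum_congr rfl fun z hz => hmeas z (hZpos z hz), Finset.sum_const, nsmul_eq_mul]
    · intro z hz w hw hzw
      rw [Function.onFun, Set.disjoint_left]
      intro x hx hx'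
      exact hBdisj z hz w hw hzw x hx hx'
    · exact fun z _ => hmeas' z
  set S' := S.filter fun s => 0 < s with hS'
  set E₀ := ⋃ s ∈ S', (fun x : UnitAddCircle => s • x) ⁻¹' B with hE₀
  have hE₀m : MeasurableSet E₀ := Finset.measurableSet_biUnion _ fun z _ => hmeas' z
  have hE₀r : volume.real E₀ ≤ S.card * b := by
    rw [hE₀]
    refine (measureReal_biUnion_finset_le _ _).trans ?_
    rw [Finset.sum_congr rfl fun s hs => hmeas s (Finset.mem_filter.mp hs).2, Finset.sum_const, nsmul_eq_mul]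
    refine mul_le_mul_of_nonneg_right ?_ hbpos.le
    exact_mod_cast Finset.card_filter_le _ _
  set β := volume.real G with hβ
  have hβpos : 0 < β := by rw [hGr]; exact mul_pos (by exact_mod_cast hZ) hbpos
  have hβ1 : β ≤ 1 := measureReal_le_one
  -- number of copies
  set m : ℕ := ⌈(2 * k : ℝ) / β⌉₊ with hm
  have hm1 : (2 * k : ℝ) / β ≤ m := Nat.le_ceil _
  have hm2 : (m : ℝ) < (2 * k : ℝ) / β + 1 := Nat.ceil_lt_add_one (by positivity)
  obtain ⟨Q, hQ1, hQ2, hQ3⟩ := exists_cover hGm m
  refine ⟨⋃ q ∈ Q, (fun x : UnitAddCircle => q • x) ⁻¹' E₀, ?_, ?_, ⋃ q ∈ Q, (fun x : UnitAddCircle => q • x) ⁻¹' G,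
    ?_, ?_, ?_⟩
  · exact Finset.measurableSet_biUnion _ fun q hq => (mp_nsmul (hQ2 q hq)).measurable hE₀m
  · refine (measureReal_biUnion_finset_le _ _).trans ?_
    have h1 : ∀ q ∈ Q, volume.real ((fun x : UnitAddCircle => q • x) ⁻¹' E₀) ≤ S.card * b := by
      intro q hq
      rw [measureReal_def, (mp_nsmul (hQ2 q hq)).measure_preimage hE₀m.nullMeasurableSet, ← measureReal_def]
      exact hE₀r
    refine (Finset.sum_le_sum h1).trans ?_
    rw [Finset.sum_const, nsmul_eq_mul]
    have h2 : (C : ℝ) * (S.card * b) ≤ β := by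
      rw [hGr]
      have h3 : ((C * S.card : ℕ) : ℝ) ≤ Z.card := by
        have : C * S.card ≤ Z.card := le_trans (Nat.mul_le_mul_right _ (by omega)) hSZ
        exact_mod_cast this
      push_cast at h3
      nlinarith
    have h4 : (Q.card : ℝ) ≤ m := by exact_mod_cast hQ1
    have h5 : (m : ℝ) * β ≤ 2 * k + 1 := by
      have : (m : ℝ) * β < ((2 * k : ℝ) / β + 1) * β := mul_lt_mul_of_pos_right hm2 hβpos
      rw [add_mul, div_mul_cancel₀ _ hβpos.ne', one_mul] at this
      linarith
    push_cast at hC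
    have hCpos : (0 : ℝ) < C := by
      by_contra hcon
      push Not at hcon
      have : ε * (C : ℝ) ≤ 0 := mul_nonpos_of_nonneg_of_nonpos hε.le hcon
      have hk0 : (0 : ℝ) ≤ k := by positivity
      linarith
    have h6 : (Q.card : ℝ) * (S.card * b) * C ≤ ε * C := by
      calc (Q.card : ℝ) * (S.card * b) * C = Q.card * (C * (S.card * b)) := by ring
        _ ≤ m * β := mul_le_mul h4 h2 (by positivity) (by positivity)
        _ ≤ 2 * k + 1 := h5
        _ ≤ ε * C := hC
    exact le_of_mul_le_mul_right h6 hCpos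
  · exact Finset.measurableSet_biUnion _ fun q hq => (mp_nsmul (hQ2 q hq)).measurable hGm
  · have e1 : (⋃ q ∈ Q, (fun x : UnitAddCircle => q • x) ⁻¹' G)ᶜ =
        ⋂ q ∈ Q, (fun x : UnitAddCircle => q • x) ⁻¹' Gᶜ := by
      simp only [compl_iUnion, preimage_compl]
    rw [e1]
    refine hQ3.trans (le_trans ?_ hk)
    have h1 : 1 - β / 2 ≤ Real.exp (-(β / 2)) := by
      have := Real.add_one_le_exp (-(β / 2))
      linarith
    calc (1 - β / 2) ^ m ≤ (Real.exp (-(β / 2))) ^ m := pow_le_pow_left₀ (by linarith) h1 _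
      _ = Real.exp (-(m * (β / 2))) := by rw [← Real.exp_nat_mul]; ring_nf
      _ ≤ Real.exp (-(k : ℝ)) := by
          refine Real.exp_le_exp.mpr ?_
          rw [div_le_iff₀ hβpos] at hm1
          linarith
      _ = (Real.exp (-1)) ^ k := by rw [← Real.exp_nat_mul]; ring_nf
      _ ≤ (1 / 2) ^ k := by
          refine pow_le_pow_left₀ (Real.exp_pos _).le ?_ _
          have h2 : (2 : ℝ) ≤ Real.exp 1 := by
            have := Real.add_one_le_exp (1 : ℝ)
            linarith
          rw [Real.exp_neg, one_div]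
          exact inv_anti₀ (by norm_num) h2
  · intro x hx
    simp only [mem_iUnion, mem_preimage, exists_prop] at hx
    obtain ⟨q, hq, z, hz, hzx⟩ := by
      simpa only [hG, mem_iUnion, mem_preimage, exists_prop] using hx
    obtain ⟨N, hN0, hNpos, hN⟩ := hzN z hz
    refine ⟨N, hN0, ?_⟩
    have hNpos' : (0 : ℝ) < N := by exact_mod_cast hNpos
    rw [avI, one_div_mul_eq_div, le_div_iff₀ hNpos']
    have h1 : ∑ n ∈ (Finset.Icc 1 N).filter (fun n => ∃ s ∈ S, s * lam n = z), (1 : ℝ) ≤
        ∑ n ∈ Finset.Icc 1 N, (⋃ q ∈ Q, (fun x : UnitAddCircle => q • x) ⁻¹' E₀).indicator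
          (fun _ => (1 : ℝ)) (lam n • x) := by
      rw [Finset.sum_filter]
      refine Finset.sum_le_sum fun n _ => ?_
      split_ifs with hn
      · obtain ⟨s, hs, hsz⟩ := hn
        rw [indicator_of_mem]
        simp only [mem_iUnion, mem_preimage, exists_prop]
        refine ⟨q, hq, ?_⟩
        simp only [hE₀, mem_iUnion, mem_preimage, exists_prop]
        have hs0 : 0 < s := by
          rcases Nat.eq_zero_or_pos s with h | h
          · rw [h, zero_mul] at hsz
            have := hZpos z hz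
            omega
          · exact h
        refine ⟨s, Finset.mem_filter.mpr ⟨hs, hs0⟩, ?_⟩
        have e2 : s • q • lam n • x = z • q • x := by
          rw [smul_smul, smul_smul, smul_smul, ← hsz]
          congr 1
          ring
        rw [e2]
        exact hzx
      · exact indicator_nonneg (fun _ _ => zero_le_one) _
    rw [Finset.sum_const, nsmul_eq_mul, mul_one] at h1
    refine le_trans ?_ h1
    have h2 : ((N : ℕ) : ℝ) ≤ ((2 * ((Finset.Icc 1 N).filter fun n => ∃ s ∈ S, s * lam n = z).card : ℕ) : ℝ) := by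
      exact_mod_cast hN
    push_cast at h2
    linarith

/-- A rich sequence is bad: there is a set of arbitrarily small measure on which the averages are frequently at least
`1/2`, for almost every point. -/
theorem sweep {lam : ℕ → ℕ} (hR : Rich lam) {ε : ℝ} (hε : 0 < ε) :
    ∃ E : Set UnitAddCircle, MeasurableSet E ∧ volume.real E ≤ ε ∧
      ∀ᵐ x : UnitAddCircle, ∃ᶠ N in atTop, 1 / 2 ≤ avI lam E N x := by
  have hst : ∀ k : ℕ, _ := fun k => stage hR (ε := ε / 2 ^ (k + 1)) (by positivity) k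
  choose E hEm hE H hHm hH hmax using hst
  have hsum : ∑' k : ℕ, ε / 2 ^ (k + 1) = ε := by
    have h1 := tsum_geometric_two' ε
    refine Eq.trans ?_ h1
    congr 1
    ext k
    rw [pow_succ]
    field_simp
  have hsumm : Summable fun k : ℕ => ε / 2 ^ (k + 1) := by
    have h1 := summable_geometric_two' ε
    refine h1.congr fun k => ?_
    rw [pow_succ]
    field_simp
  refine ⟨⋃ k, E k, MeasurableSet.iUnion hEm, ?_, ?_⟩
  · have h1 : volume (⋃ k, E k) ≤ ENNReal.ofReal ε := by
      calc volume (⋃ k, E k) ≤ ∑' k, volume (E k) := measure_iUnion_le _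
        _ ≤ ∑' k : ℕ, ENNReal.ofReal (ε / 2 ^ (k + 1)) := by
            refine ENNReal.tsum_le_tsum fun k => ?_
            rw [← ofReal_measureReal]
            exact ENNReal.ofReal_le_ofReal (hE k)
        _ = ENNReal.ofReal ε := by
            rw [← ENNReal.ofReal_tsum_of_nonneg (fun k => by positivity) hsumm, hsum]
    rw [measureReal_def]
    exact ENNReal.toReal_le_of_le_ofReal hε.le h1
  · have h2 : ∑' k, volume ((H k)ᶜ) ≠ ∞ := by
      refine ne_top_of_le_ne_top (b := ENNReal.ofReal ε) ENNReal.ofReal_ne_top ?_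
      calc ∑' k, volume ((H k)ᶜ) ≤ ∑' k : ℕ, ENNReal.ofReal (ε / 2 ^ (k + 1)) := by
            refine ENNReal.tsum_le_tsum fun k => ?_
            rw [← ofReal_measureReal]
            exact ENNReal.ofReal_le_ofReal (hH k)
        _ = ENNReal.ofReal ε := by
            rw [← ENNReal.ofReal_tsum_of_nonneg (fun k => by positivity) hsumm, hsum]
    filter_upwards [ae_eventually_notMem h2] with x hx
    rw [frequently_atTop]
    intro M
    obtain ⟨K, hK⟩ := eventually_atTop.mp hx
    have h3 := hK (max K M) (le_max_left _ _)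
    rw [notMem_compl_iff] at h3
    obtain ⟨N, hN1, hN2⟩ := hmax (max K M) x h3
    exact ⟨N, (le_max_right _ _).trans hN1, hN2.trans (avI_mono lam (subset_iUnion E _) N x)⟩

/-- `lam` is an `L^p`-Khintchin sequence. -/
def LpKhintchin (p : ℝ≥0∞) (lam : ℕ → ℕ) : Prop :=
  ∀ f : UnitAddCircle → ℂ, MemLp f p volume →
    ∀ᵐ x : UnitAddCircle, Tendsto (fun N : ℕ => (1 / (N : ℂ)) * ∑ n ∈ Finset.Icc 1 N, f (lam n • x)) atTop
      (𝓝 (∫ y, f y))

theorem Rich.not_khintchin {lam : ℕ → ℕ} (hR : Rich lam) (p : ℝ≥0∞) : ¬ LpKhintchin p lam := by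
  intro hK
  obtain ⟨E, hEm, hE, hfr⟩ := sweep hR (ε := 1 / 4) (by norm_num)
  have hf : MemLp (E.indicator fun _ => (1 : ℂ)) p (volume : Measure UnitAddCircle) :=
    memLp_indicator_const p hEm 1 (Or.inr (measure_ne_top _ _))
  obtain ⟨x, hx1, hx2⟩ := ((hK _ hf).and hfr).exists
  rw [integral_indicator_const _ hEm] at hx1
  have h1 : ∀ N : ℕ, (1 / (N : ℂ)) * ∑ n ∈ Finset.Icc 1 N, (E.indicator fun _ => (1 : ℂ)) (lam n • x) =
      ((avI lam E N x : ℝ) : ℂ) := by
    intro N
    rw [avI]
    push_cast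
    congr 1
    refine Finset.sum_congr rfl fun n _ => ?_
    by_cases h : lam n • x ∈ E
    · simp [h]
    · simp [h]
  simp_rw [h1] at hx1
  have h2 : Tendsto (fun N => avI lam E N x) atTop (𝓝 (volume.real E)) := by
    have h3 := (Complex.continuous_re.tendsto _).comp hx1
    simpa [Function.comp_def] using h3
  have h4 := h2.eventually (gt_mem_nhds (show volume.real E < 1 / 2 by linarith))
  obtain ⟨N, hN1, hN2⟩ := (hx2.and_eventually h4).exists
  linarith

end Pool.Agent.Q183.Khin
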