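import Mathlib
import Pool.Agent.Q183.Khin.Sweep

set_option autoImplicit false

/-!
# Category: for generic sequences of letters the partial products are rich
-/

namespace Pool.Agent.Q183.Khin

open Set Filter Topology

/-- the partial products -/
def lamOf {P : ℕ → Prop} (w : ℕ → {m : ℕ // P m}) (n : ℕ) : ℕ := ∏ i ∈ Finset.range n, (w i).1

/-- block starting points -/
def sq (n : ℕ) : ℕ → ℕ
  | 0 => n
  | j + 1 => 3 * sq n j + 1

theorem sq_mono (n : ℕ) : Monotone (sq n) :=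
  monotone_nat_of_le_succ fun j => by rw [sq]; omega

theorem le_sq (n j : ℕ) : n ≤ sq n j := sq_mono n (Nat.zero_le j)

variable {P : ℕ → Prop} (h2 : P 2) (h3 : P 3)

/-- the letters alternate on `[s, 3s]`, beginning with `2` -/
def Blk (w : ℕ → {m : ℕ // P m}) (s : ℕ) : Prop :=
  ∀ i, s ≤ i → i < 3 * s + 1 → w i = if (i - s) % 2 = 0 then ⟨2, h2⟩ else ⟨3, h3⟩

variable {h2 h3}

theorem lam_even {w : ℕ → {m : ℕ // P m}} {s : ℕ} (hb : Blk h2 h3 w s) (i : ℕ) (hi : i ≤ s) :
    lamOf w (s + 2 * i) = lamOf w s * 6 ^ i := by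
  induction i with
  | zero => simp
  | succ i ih =>
    have ih' := ih (by omega)
    have e1 : s + 2 * (i + 1) = s + 2 * i + 1 + 1 := by ring
    rw [e1, lamOf, Finset.prod_range_succ, Finset.prod_range_succ, ← lamOf, ih']
    rw [hb (s + 2 * i) (by omega) (by omega), hb (s + 2 * i + 1) (by omega) (by omega)]
    rw [if_pos (by omega), if_neg (by omega)]
    simp only
    rw [pow_succ]; ring

theorem lam_odd {w : ℕ → {m : ℕ // P m}} {s : ℕ} (hb : Blk h2 h3 w s) (i : ℕ) (hi : i ≤ s) :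
    lamOf w (s + 2 * i + 1) = lamOf w s * 6 ^ i * 2 := by
  rw [lamOf, Finset.prod_range_succ, ← lamOf, lam_even hb i hi, hb (s + 2 * i) (by omega) (by omega),
    if_pos (by omega)]

theorem six_two {l a t : ℕ} (h : 6 ^ l = 6 ^ a * 2 ^ t) : t = 0 := by
  rcases lt_trichotomy l a with hla | hla | hla
  · exfalso
    have h1 : 6 ^ l < 6 ^ a := Nat.pow_lt_pow_right (by norm_num) hla
    have h2 : 6 ^ a ≤ 6 ^ a * 2 ^ t := Nat.le_mul_of_pos_right _ (by positivity)
    omega
  · subst hla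
    have h1 : (6 : ℕ) ^ l * 2 ^ t = 6 ^ l * 1 := by omega
    have h2 := Nat.eq_of_mul_eq_mul_left (by positivity) h1
    by_contra ht
    have : 1 < 2 ^ t := Nat.one_lt_pow ht (by norm_num)
    omega
  · exfalso
    obtain ⟨c, rfl⟩ : ∃ c, l = a + (c + 1) := ⟨l - a - 1, by omega⟩
    rw [pow_add] at h
    have h2 := Nat.eq_of_mul_eq_mul_left (by positivity) h
    have h3 : 3 ∣ 2 ^ t := by
      rw [← h2, pow_succ]
      exact Dvd.dvd.mul_left (by norm_num) _
    have h4 := Nat.Prime.dvd_of_dvd_pow Nat.prime_three h3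
    omega

theorem lam_chain {w : ℕ → {m : ℕ // P m}} {n J : ℕ} (hb : ∀ j < J, Blk h2 h3 w (sq n j)) (j t : ℕ)
    (hjt : j + t < J) : ∃ m, lamOf w (sq n (j + t)) = lamOf w (sq n j) * 6 ^ m * 2 ^ t := by
  induction t with
  | zero => exact ⟨0, by simp⟩
  | succ t ih =>
    obtain ⟨m, hm⟩ := ih (by omega)
    refine ⟨m + sq n (j + t), ?_⟩
    have e1 : sq n (j + (t + 1)) = sq n (j + t) + 2 * sq n (j + t) + 1 := by
      rw [← add_assoc, sq]; ring
    rw [e1, lam_odd (hb _ (by omega)) _ le_rfl, hm, pow_add, pow_succ]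
    ring

theorem lam_pos (hP : ∀ m, P m → 0 < m) (w : ℕ → {m : ℕ // P m}) (n : ℕ) : 0 < lamOf w n :=
  Finset.prod_pos fun i _ => hP _ (w i).2

/-- many blocks give rich data -/
theorem blocks_rich (hP : ∀ m, P m → 0 < m) {w : ℕ → {m : ℕ // P m}} {C n n₀ : ℕ} (hn : n₀ < n)
    (hb : ∀ j < 4 * C + 1, Blk h2 h3 w (sq n j)) :
    ∃ S Z : Finset ℕ, 0 < Z.card ∧ C * S.card ≤ Z.card ∧ (∀ z ∈ Z, 0 < z) ∧ ∀ z ∈ Z, ∃ N, n₀ ≤ N ∧ 0 < N ∧
      N ≤ 2 * ((Finset.Icc 1 N).filter fun i => ∃ s ∈ S, s * lamOf w i = z).card := by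
  classical
  set J := 4 * C + 1 with hJ
  set L := 3 * sq n J with hL
  have hLpos : 0 < L := by have := le_sq n J; omega
  set S : Finset ℕ := (Finset.range (2 * L)).image (fun k => 6 ^ k) ∪
    (Finset.range (2 * L)).image (fun k => 3 * 6 ^ k) with hS
  set Z : Finset ℕ := (Finset.range J ×ˢ Finset.Ico L (2 * L)).image
    (fun p => lamOf w (sq n p.1) * 6 ^ p.2) with hZ
  have hinj : Set.InjOn (fun p : ℕ × ℕ => lamOf w (sq n p.1) * 6 ^ p.2)
      (↑(Finset.range J ×ˢ Finset.Ico L (2 * L)) : Set (ℕ × ℕ)) := by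
    have key : ∀ j t l l' : ℕ, j + t < J → lamOf w (sq n j) * 6 ^ l = lamOf w (sq n (j + t)) * 6 ^ l' → t = 0 := by
      intro j t l l' hjt h
      obtain ⟨m, hm⟩ := lam_chain hb j t hjt
      rw [hm] at h
      have h1 : lamOf w (sq n j) * 6 ^ l = lamOf w (sq n j) * (6 ^ (m + l') * 2 ^ t) := by
        rw [h, pow_add]; ring
      exact six_two (Nat.eq_of_mul_eq_mul_left (lam_pos hP w _) h1)
    rintro ⟨j, l⟩ hp ⟨j', l'⟩ hp' h
    simp only [Finset.coe_product, Finset.coe_range, Finset.coe_Ico, Set.mem_prod, Set.mem_Iio, Set.mem_Ico]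
      at hp hp' h
    have hjj : j = j' := by
      rcases le_total j j' with hle | hle
      · obtain ⟨t, rfl⟩ := Nat.exists_eq_add_of_le hle
        have := key j t l l' hp'.1 h
        omega
      · obtain ⟨t, rfl⟩ := Nat.exists_eq_add_of_le hle
        have := key j' t l' l hp.1 h.symm
        omega
    subst hjj
    have h1 := Nat.eq_of_mul_eq_mul_left (lam_pos hP w _) h
    have h2' := Nat.pow_right_injective (le_refl 2 |>.trans (by norm_num : 2 ≤ 6)) h1
    rw [Prod.mk.injEq]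
    exact ⟨rfl, h2'⟩
  have hZcard : Z.card = J * L := by
    rw [hZ, Finset.card_image_of_injOn hinj, Finset.card_product, Finset.card_range, Nat.card_Ico]
    congr 1; omega
  have hScard : S.card ≤ 4 * L := by
    refine (Finset.card_union_le _ _).trans ?_
    have h1 := Finset.card_image_le (s := Finset.range (2 * L)) (f := fun k => 6 ^ k)
    have h2' := Finset.card_image_le (s := Finset.range (2 * L)) (f := fun k => 3 * 6 ^ k)
    rw [Finset.card_range] at h1 h2'
    omega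
  refine ⟨S, Z, ?_, ?_, ?_, ?_⟩
  · rw [hZcard]; positivity
  · rw [hZcard]
    calc C * S.card ≤ C * (4 * L) := Nat.mul_le_mul_left _ hScard
      _ ≤ J * L := by rw [hJ]; nlinarith
  · intro z hz
    rw [hZ, Finset.mem_image] at hz
    obtain ⟨p, _, rfl⟩ := hz
    exact Nat.mul_pos (lam_pos hP w _) (by positivity)
  · intro z hz
    rw [hZ, Finset.mem_image] at hz
    obtain ⟨⟨j, l⟩, hp, rfl⟩ := hz
    rw [Finset.mem_product, Finset.mem_range, Finset.mem_Ico] at hp
    simp only at hp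
    obtain ⟨hj, hl1, hl2⟩ := hp
    have hsj : n ≤ sq n j := le_sq n j
    have hsJ : sq n j ≤ sq n J := sq_mono n (by omega)
    refine ⟨3 * sq n j, by omega, by omega, ?_⟩
    dsimp only
    have hsub : Finset.Icc (sq n j + 1) (3 * sq n j) ⊆
        (Finset.Icc 1 (3 * sq n j)).filter fun i => ∃ s ∈ S, s * lamOf w i = lamOf w (sq n j) * 6 ^ l := by
      intro i hi
      rw [Finset.mem_Icc] at hi
      rw [Finset.mem_filter, Finset.mem_Icc]
      refine ⟨by omega, ?_⟩
      rcases Nat.even_or_odd' (i - sq n j) with ⟨k, hk | hk⟩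
      · have hi' : i = sq n j + 2 * k := by omega
        refine ⟨6 ^ (l - k), ?_, ?_⟩
        · rw [hS, Finset.mem_union]
          exact Or.inl (Finset.mem_image.mpr ⟨l - k, Finset.mem_range.mpr (by omega), rfl⟩)
        · rw [hi', lam_even (hb j hj) k (by omega)]
          have : (6 : ℕ) ^ l = 6 ^ (l - k) * 6 ^ k := by
            rw [← pow_add]; congr 1; omega
          rw [this]; ring
      · have hi' : i = sq n j + 2 * k + 1 := by omega
        refine ⟨3 * 6 ^ (l - k - 1), ?_, ?_⟩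
        · rw [hS, Finset.mem_union]
          exact Or.inr (Finset.mem_image.mpr ⟨l - k - 1, Finset.mem_range.mpr (by omega), rfl⟩)
        · rw [hi', lam_odd (hb j hj) k (by omega)]
          have : (6 : ℕ) ^ l = 6 ^ (l - k - 1) * 6 ^ k * 6 := by
            rw [← pow_add, ← pow_succ]; congr 1; omega
          rw [this]; ring
    have h1 := Finset.card_le_card hsub
    rw [Nat.card_Icc] at h1
    omega

variable (h2 h3)

/-- the set of sequences with `J` blocks beyond `n₀` -/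
def GG (J n₀ : ℕ) : Set (ℕ → {m : ℕ // P m}) := {w | ∃ n, n₀ < n ∧ ∀ j < J, Blk h2 h3 w (sq n j)}

theorem isOpen_Blk (s : ℕ) : IsOpen {w : ℕ → {m : ℕ // P m} | Blk h2 h3 w s} := by
  have : {w : ℕ → {m : ℕ // P m} | Blk h2 h3 w s} =
      ⋂ i ∈ Finset.Ico s (3 * s + 1), {w | w i = if (i - s) % 2 = 0 then ⟨2, h2⟩ else ⟨3, h3⟩} := by
    ext w
    simp only [Blk, mem_ofPred_eq, mem_iInter, Finset.mem_Ico, and_imp]
  rw [this]
  refine isOpen_biInter_finset fun i _ => ?_
  have hc : Continuous (fun w : ℕ → {m : ℕ // P m} => w i) := continuous_apply i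
  exact (isOpen_discrete ({if (i - s) % 2 = 0 then ⟨2, h2⟩ else ⟨3, h3⟩} : Set {m : ℕ // P m})).preimage hc

theorem isOpen_GG (J n₀ : ℕ) : IsOpen (GG h2 h3 J n₀) := by
  have : GG h2 h3 J n₀ = ⋃ n ∈ {n : ℕ | n₀ < n}, ⋂ j ∈ Finset.range J, {w | Blk h2 h3 w (sq n j)} := by
    ext w
    simp only [GG, mem_ofPred_eq, mem_iUnion, mem_iInter, Finset.mem_range, exists_prop]
  rw [this]
  exact isOpen_biUnion fun n _ => isOpen_biInter_finset fun j _ => isOpen_Blk h2 h3 _

theorem exists_ext (u : ℕ → {m : ℕ // P m}) (n J : ℕ) :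
    ∃ w : ℕ → {m : ℕ // P m}, (∀ i < n, w i = u i) ∧ ∀ j < J, Blk h2 h3 w (sq n j) := by
  induction J with
  | zero => exact ⟨u, fun _ _ => rfl, fun j hj => absurd hj (by omega)⟩
  | succ J ih =>
    obtain ⟨w, hw1, hw2⟩ := ih
    refine ⟨fun i => if i < sq n J then w i else if (i - sq n J) % 2 = 0 then ⟨2, h2⟩ else ⟨3, h3⟩, ?_, ?_⟩
    · intro i hi
      have := le_sq n J
      simp only
      rw [if_pos (by omega), hw1 i hi]
    · intro j hj i hi1 hi2
      simp only
      rcases Nat.lt_succ_iff_lt_or_eq.mp hj with h | h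
      · have h4 : sq n (j + 1) ≤ sq n J := sq_mono n h
        rw [sq] at h4
        rw [if_pos (by omega)]
        exact hw2 j h i hi1 hi2
      · subst h
        rw [if_neg (by omega)]

theorem dense_GG (J n₀ : ℕ) : Dense (GG h2 h3 J n₀) := by
  rw [dense_iff_inter_open]
  intro V hV ⟨u, hu⟩
  obtain ⟨I, U, hU1, hU2⟩ := isOpen_pi_iff.mp hV u hu
  obtain ⟨n, hn0, hn1⟩ : ∃ n, n₀ < n ∧ ∀ i ∈ I, i < n :=
    ⟨max (n₀ + 1) (I.sup id + 1), by
      have := le_max_left (n₀ + 1) (I.sup id + 1); omega, fun i hi => by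
      have h4 : i ≤ I.sup id := Finset.le_sup (f := id) hi
      have := le_max_right (n₀ + 1) (I.sup id + 1); omega⟩
  obtain ⟨w, hw1, hw2⟩ := exists_ext h2 h3 u n J
  refine ⟨w, hU2 ?_, n, hn0, hw2⟩
  intro i hi
  rw [hw1 i (hn1 i hi)]
  exact (hU1 i hi).2

include h2 h3 in
/-- Generic sequences of letters have rich partial products. -/
theorem residual_rich (hP : ∀ m, P m → 0 < m) : {w : ℕ → {m : ℕ // P m} | Rich (lamOf w)} ∈ residual _ := by
  have h : (⋂ p : ℕ × ℕ, GG h2 h3 (4 * p.1 + 1) p.2) ∈ residual (ℕ → {m : ℕ // P m}) := by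
    refine countable_iInter_mem.mpr fun p => ?_
    exact residual_of_dense_open (isOpen_GG h2 h3 _ _) (dense_GG h2 h3 _ _)
  refine Filter.mem_of_superset h fun w hw => ?_
  intro C n₀
  obtain ⟨n, hn, hb⟩ := mem_iInter.mp hw (C, n₀)
  exact blocks_rich hP hn hb

end Pool.Agent.Q183.Khin
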