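import Mathlib
import Pool.Agent.Q183.Khin.Sweep

set_option autoImplicit false

/-!
# From paths staying in tubes to rich data
-/

namespace Pool.Agent.Q183.Khin

open Finset

/-- the number of `true` among the first `n` letters -/
def cnt (b : ℕ → Bool) (n : ℕ) : ℕ := ∑ i ∈ range n, if b i then 1 else 0

/-- the product of the first `n` letters, `true = 2`, `false = 3` -/
def lamB (b : ℕ → Bool) (n : ℕ) : ℕ := ∏ i ∈ range n, if b i then 2 else 3

theorem cnt_le (b : ℕ → Bool) (n : ℕ) : cnt b n ≤ n := by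
  calc cnt b n ≤ ∑ _i ∈ range n, 1 := sum_le_sum fun i _ => by split_ifs <;> norm_num
    _ = n := by simp

theorem lamB_eq (b : ℕ → Bool) (n : ℕ) : lamB b n = 2 ^ cnt b n * 3 ^ (n - cnt b n) := by
  induction n with
  | zero => simp [lamB, cnt]
  | succ n ih =>
    have h1 := cnt_le b n
    rw [lamB, prod_range_succ, ← lamB, ih]
    have h2 : cnt b (n + 1) = cnt b n + if b n then 1 else 0 := by rw [cnt, sum_range_succ, ← cnt]
    rw [h2]
    by_cases hb : b n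
    · simp only [hb, if_true]
      rw [pow_succ, show n + 1 - (cnt b n + 1) = n - cnt b n by omega]
      ring
    · simp only [hb, Bool.false_eq_true, if_false, add_zero]
      rw [show n + 1 - cnt b n = (n - cnt b n) + 1 by omega, pow_succ]
      ring

theorem pow23_inj {x y x' y' : ℕ} (h : 2 ^ x * 3 ^ y = 2 ^ x' * 3 ^ y') : x = x' ∧ y = y' := by
  have v2 : ∀ x y : ℕ, padicValNat 2 (2 ^ x * 3 ^ y) = x := by
    intro x y
    rw [padicValNat.mul (by positivity) (by positivity), padicValNat.prime_pow,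
      padicValNat.eq_zero_of_not_dvd, add_zero]
    intro hd
    have := Nat.Prime.dvd_of_dvd_pow Nat.prime_two hd
    omega
  have v3 : ∀ x y : ℕ, padicValNat 3 (2 ^ x * 3 ^ y) = y := by
    intro x y
    have : Fact (Nat.Prime 3) := ⟨Nat.prime_three⟩
    rw [padicValNat.mul (by positivity) (by positivity), padicValNat.prime_pow,
      padicValNat.eq_zero_of_not_dvd, zero_add]
    intro hd
    have := Nat.Prime.dvd_of_dvd_pow Nat.prime_three hd
    omega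
  refine ⟨?_, ?_⟩
  · rw [← v2 x y, h, v2]
  · rw [← v3 x y, h, v3]

/-- the integer with coordinates `e` (longitudinal) and `v` (transversal) -/
noncomputable def exq (p : ℝ) (T : ℕ) (e : ℕ) (v : ℤ) : ℕ :=
  2 ^ ((T : ℤ) + ⌊p * e⌋ + v).toNat * 3 ^ ((T : ℤ) + e - ⌊p * e⌋ - v).toNat

theorem exq_inj {p : ℝ} (hp0 : 0 ≤ p) (hp1 : p ≤ 1) {T e e' : ℕ} {v v' : ℤ} (hv : |v| ≤ T) (hv' : |v'| ≤ T)
    (h : exq p T e v = exq p T e' v') : e = e' ∧ v = v' := by
  have hfl : ∀ e : ℕ, 0 ≤ ⌊p * e⌋ ∧ ⌊p * e⌋ ≤ e := by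
    intro e
    refine ⟨Int.floor_nonneg.mpr (by positivity), ?_⟩
    have h1 : p * (e : ℝ) ≤ (e : ℤ) := by
      push_cast
      nlinarith [show (0 : ℝ) ≤ e by positivity]
    exact (Int.floor_le_floor h1).trans (by simp)
  obtain ⟨h1, h2⟩ := pow23_inj h
  have a1 := hfl e
  have a2 := hfl e'
  rw [abs_le] at hv hv'
  have b1 : ((T : ℤ) + ⌊p * e⌋ + v) = ((T : ℤ) + ⌊p * e'⌋ + v') := by
    have : ((((T : ℤ) + ⌊p * e⌋ + v).toNat : ℕ) : ℤ) = (((T : ℤ) + ⌊p * e'⌋ + v').toNat : ℕ) := by rw [h1]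
    rw [Int.toNat_of_nonneg (by linarith), Int.toNat_of_nonneg (by linarith)] at this
    exact this
  have b2 : ((T : ℤ) + e - ⌊p * e⌋ - v) = ((T : ℤ) + e' - ⌊p * e'⌋ - v') := by
    have : ((((T : ℤ) + e - ⌊p * e⌋ - v).toNat : ℕ) : ℤ) = (((T : ℤ) + e' - ⌊p * e'⌋ - v').toNat : ℕ) := by rw [h2]
    rw [Int.toNat_of_nonneg (by linarith), Int.toNat_of_nonneg (by linarith)] at this
    exact this
  have he : e = e' := by
    have : (e : ℤ) = e' := by linarith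
    exact_mod_cast this
  subst he
  exact ⟨rfl, by linarith⟩

theorem geo {p : ℝ} (hp0 : 0 ≤ p) (hp1 : p ≤ 1) (b : ℕ → Bool) {h J C n₀ : ℕ} (c : ℕ → ℤ) (N : ℕ → ℕ)
    (hJ : 6 * C < J) (hc : ∀ j < J, ∀ j' < J, j ≠ j' → (2 * h + 1 : ℤ) ≤ |c j - c j'|)
    (hN : ∀ j < J, n₀ ≤ N j ∧ 0 < N j ∧
      N j ≤ 2 * ((Icc 1 (N j)).filter fun n : ℕ => |(cnt b n : ℤ) - ⌊p * (n : ℝ)⌋ - c j| ≤ h).card) :
    ∃ S Z : Finset ℕ, 0 < Z.card ∧ C * S.card ≤ Z.card ∧ (∀ z ∈ Z, 0 < z) ∧ ∀ z ∈ Z, ∃ N, n₀ ≤ N ∧ 0 < N ∧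
      N ≤ 2 * ((Icc 1 N).filter fun i => ∃ s ∈ S, s * lamB b i = z).card := by
  classical
  set M : ℕ := (range J).sup N with hM
  set T : ℕ := (range J).sup (fun j => (c j).natAbs) + 2 * h + 1 with hT
  have hNM : ∀ j < J, N j ≤ M := fun j hj => le_sup (f := N) (mem_range.mpr hj)
  have hcT : ∀ j < J, |c j| + (2 * h + 1) ≤ T := by
    intro j hj
    have h1 : (c j).natAbs ≤ (range J).sup (fun j => (c j).natAbs) :=
      le_sup (f := fun j => (c j).natAbs) (mem_range.mpr hj)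
    rw [Int.abs_eq_natAbs]
    omega
  set S : Finset ℕ := (range (2 * M + 1) ×ˢ Icc (-(2 * h + 1 : ℤ)) (2 * h + 1)).image (fun q => exq p T q.1 q.2)
    with hS
  set Z : Finset ℕ := (range J ×ˢ (Icc M (2 * M) ×ˢ Icc (-(h : ℤ)) h)).image
    (fun q => exq p T q.2.1 (c q.1 + q.2.2)) with hZ
  have hScard : S.card ≤ (2 * M + 1) * (4 * h + 3) := by
    refine card_image_le.trans ?_
    rw [card_product, card_range, Int.card_Icc]
    refine Nat.mul_le_mul_left _ ?_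
    omega
  have hZcard : Z.card = J * ((M + 1) * (2 * h + 1)) := by
    rw [hZ, card_image_of_injOn, card_product, card_product, card_range, Nat.card_Icc, Int.card_Icc]
    · congr 2
      · omega
      · omega
    · rintro ⟨j, e, u⟩ hq ⟨j', e', u'⟩ hq' heq
      simp only [coe_product, coe_range, coe_Icc, Set.mem_prod, Set.mem_Iio, Set.mem_Icc] at hq hq' heq
      have hv : |c j + u| ≤ T := by
        have := hcT j hq.1
        have h1 : |u| ≤ h := abs_le.mpr hq.2.2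
        have := abs_add_le (c j) u
        linarith [show (0 : ℤ) ≤ h by positivity]
      have hv' : |c j' + u'| ≤ T := by
        have := hcT j' hq'.1
        have h1 : |u'| ≤ h := abs_le.mpr hq'.2.2
        have := abs_add_le (c j') u'
        linarith [show (0 : ℤ) ≤ h by positivity]
      obtain ⟨h1, h2⟩ := exq_inj hp0 hp1 hv hv' heq
      have hjj : j = j' := by
        by_contra hne
        have h3 := hc j hq.1 j' hq'.1 hne
        have h4 : c j - c j' = u' - u := by linarith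
        rw [h4] at h3
        have h5 : |u' - u| ≤ 2 * h := by
          rw [abs_le]; constructor <;> linarith [hq.2.2.1, hq.2.2.2, hq'.2.2.1, hq'.2.2.2]
        linarith
      subst hjj
      have huu : u = u' := by linarith
      rw [h1, huu]
  refine ⟨S, Z, ?_, ?_, ?_, ?_⟩
  · rw [hZcard]
    have : 0 < J := by omega
    positivity
  · rw [hZcard]
    calc C * S.card ≤ C * ((2 * M + 1) * (4 * h + 3)) := Nat.mul_le_mul_left _ hScard
      _ ≤ C * ((2 * (M + 1)) * (3 * (2 * h + 1))) :=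
          Nat.mul_le_mul_left _ (Nat.mul_le_mul (by omega) (by omega))
      _ = 6 * C * ((M + 1) * (2 * h + 1)) := by ring
      _ ≤ J * ((M + 1) * (2 * h + 1)) := Nat.mul_le_mul_right _ hJ.le
  · intro z hz
    rw [hZ, mem_image] at hz
    obtain ⟨q, _, rfl⟩ := hz
    unfold exq
    positivity
  · intro z hz
    rw [hZ, mem_image] at hz
    obtain ⟨⟨j, e, u⟩, hq, rfl⟩ := hz
    simp only [mem_product, mem_range, mem_Icc] at hq
    obtain ⟨hj, ⟨he1, he2⟩, hu1, hu2⟩ := hq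
    obtain ⟨hN1, hN2, hN3⟩ := hN j hj
    refine ⟨N j, hN1, hN2, hN3.trans (Nat.mul_le_mul_left _ (card_le_card ?_))⟩
    dsimp only
    intro n hn
    rw [mem_filter, mem_Icc] at hn ⊢
    obtain ⟨⟨hn1, hn2⟩, hn3⟩ := hn
    refine ⟨⟨hn1, hn2⟩, ?_⟩
    have hne : n ≤ e := hn2.trans ((hNM j hj).trans he1)
    obtain ⟨e', rfl⟩ := Nat.exists_eq_add_of_le' hne
    -- e = e' + n
    set v' : ℤ := ⌊p * ((e' + n : ℕ) : ℝ)⌋ + (c j + u) - cnt b n - ⌊p * (e' : ℝ)⌋ with hv'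
    have hfl1 : ⌊p * (e' : ℝ)⌋ + ⌊p * (n : ℝ)⌋ ≤ ⌊p * ((e' + n : ℕ) : ℝ)⌋ := by
      push_cast
      rw [mul_add]
      exact Int.le_floor_add _ _
    have hfl2 : ⌊p * ((e' + n : ℕ) : ℝ)⌋ ≤ ⌊p * (e' : ℝ)⌋ + ⌊p * (n : ℝ)⌋ + 1 := by
      push_cast
      rw [mul_add]
      have := Int.le_floor_add_floor (p * (e' : ℝ)) (p * (n : ℝ))
      linarith
    rw [abs_le] at hn3
    have hv'1 : -(2 * h + 1 : ℤ) ≤ v' := by rw [hv']; linarith [hn3.1, hn3.2]
    have hv'2 : v' ≤ 2 * h + 1 := by rw [hv']; linarith [hn3.1, hn3.2]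
    refine ⟨exq p T e' v', ?_, ?_⟩
    · rw [hS, mem_image]
      refine ⟨(e', v'), ?_, rfl⟩
      rw [mem_product, mem_range, mem_Icc]
      exact ⟨by simp only; omega, hv'1, hv'2⟩
    · rw [lamB_eq, exq, exq]
      have hcn := cnt_le b n
      have hfle : ∀ e : ℕ, 0 ≤ ⌊p * (e : ℝ)⌋ ∧ ⌊p * (e : ℝ)⌋ ≤ e := by
        intro e
        refine ⟨Int.floor_nonneg.mpr (by positivity), ?_⟩
        have h1 : p * (e : ℝ) ≤ (e : ℤ) := by
          push_cast
          nlinarith [show (0 : ℝ) ≤ e by positivity]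
        exact (Int.floor_le_floor h1).trans (by simp)
      have a1 := hfle e'
      have a2 := hfle (e' + n)
      have a3 := hcT j hj
      have a4 := abs_le.mp (le_refl |c j|)
      have e1 : ((T : ℤ) + ⌊p * (e' : ℝ)⌋ + v').toNat + cnt b n =
          ((T : ℤ) + ⌊p * ((e' + n : ℕ) : ℝ)⌋ + (c j + u)).toNat := by
        have : (0 : ℤ) ≤ (T : ℤ) + ⌊p * (e' : ℝ)⌋ + v' := by linarith [abs_nonneg (c j)]
        have h5 : (((T : ℤ) + ⌊p * (e' : ℝ)⌋ + v').toNat : ℤ) = (T : ℤ) + ⌊p * (e' : ℝ)⌋ + v' := Int.toNat_of_nonneg this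
        have h6 : (((T : ℤ) + ⌊p * ((e' + n : ℕ) : ℝ)⌋ + (c j + u)).toNat : ℤ) =
            (T : ℤ) + ⌊p * ((e' + n : ℕ) : ℝ)⌋ + (c j + u) := Int.toNat_of_nonneg (by linarith)
        have : ((((T : ℤ) + ⌊p * (e' : ℝ)⌋ + v').toNat + cnt b n : ℕ) : ℤ) =
          (((T : ℤ) + ⌊p * ((e' + n : ℕ) : ℝ)⌋ + (c j + u)).toNat : ℕ) := by
          push_cast
          rw [h5, ← Nat.cast_add, h6, hv']; ring
        exact_mod_cast this
      have e2 : ((T : ℤ) + e' - ⌊p * (e' : ℝ)⌋ - v').toNat + (n - cnt b n) =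
          ((T : ℤ) + ((e' + n : ℕ) : ℤ) - ⌊p * ((e' + n : ℕ) : ℝ)⌋ - (c j + u)).toNat := by
        have : (0 : ℤ) ≤ (T : ℤ) + e' - ⌊p * (e' : ℝ)⌋ - v' := by linarith [abs_nonneg (c j)]
        have h5 : (((T : ℤ) + e' - ⌊p * (e' : ℝ)⌋ - v').toNat : ℤ) = (T : ℤ) + e' - ⌊p * (e' : ℝ)⌋ - v' :=
          Int.toNat_of_nonneg this
        have h6 : (((T : ℤ) + ((e' + n : ℕ) : ℤ) - ⌊p * ((e' + n : ℕ) : ℝ)⌋ - (c j + u)).toNat : ℤ) =
            (T : ℤ) + ((e' + n : ℕ) : ℤ) - ⌊p * ((e' + n : ℕ) : ℝ)⌋ - (c j + u) := Int.toNat_of_nonneg (by linarith)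
        have h7 : ((n - cnt b n : ℕ) : ℤ) = (n : ℤ) - cnt b n := by
          rw [Nat.cast_sub hcn]
        have : ((((T : ℤ) + e' - ⌊p * (e' : ℝ)⌋ - v').toNat + (n - cnt b n) : ℕ) : ℤ) =
          (((T : ℤ) + ((e' + n : ℕ) : ℤ) - ⌊p * ((e' + n : ℕ) : ℝ)⌋ - (c j + u)).toNat : ℕ) := by
          have h8 : (((e' + n : ℕ)) : ℤ) = (e' : ℤ) + n := by push_cast; ring
          rw [Nat.cast_add, h5, h6, h7, hv', h8]; ring
        exact_mod_cast this
      rw [← e1, ← e2, pow_add, pow_add]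
      ring

end Pool.Agent.Q183.Khin
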