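import Mathlib

set_option autoImplicit false

/-!
# Weighted sums over words and a one step estimate for biased coin tossing
-/

namespace Pool.Agent.Q183.Khin

/-- the expectation of `F` over random words of length `n` -/
def Ex (p : ℝ) : ℕ → (List Bool → ℝ) → ℝ
  | 0, F => F []
  | n + 1, F => p * Ex p n (fun l => F (true :: l)) + (1 - p) * Ex p n (fun l => F (false :: l))

theorem Ex_add_fun (p : ℝ) (n : ℕ) (F G : List Bool → ℝ) : Ex p n (fun l => F l + G l) = Ex p n F + Ex p n G := by
  induction n generalizing F G with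
  | zero => rfl
  | succ n ih => simp only [Ex]; rw [ih, ih]; ring

theorem Ex_const_mul (p : ℝ) (n : ℕ) (c : ℝ) (F : List Bool → ℝ) : Ex p n (fun l => c * F l) = c * Ex p n F := by
  induction n generalizing F with
  | zero => rfl
  | succ n ih => simp only [Ex]; rw [ih, ih]; ring

theorem Ex_const (p : ℝ) (n : ℕ) (c : ℝ) : Ex p n (fun _ => c) = c := by
  induction n with
  | zero => rfl
  | succ n ih => simp only [Ex]; rw [ih]; ring

theorem Ex_mono {p : ℝ} (hp0 : 0 ≤ p) (hp1 : p ≤ 1) (n : ℕ) {F G : List Bool → ℝ}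
    (h : ∀ l, l.length = n → F l ≤ G l) : Ex p n F ≤ Ex p n G := by
  induction n generalizing F G with
  | zero => exact h [] rfl
  | succ n ih =>
    simp only [Ex]
    refine add_le_add (mul_le_mul_of_nonneg_left (ih fun l hl => h _ (by simp [hl])) hp0)
      (mul_le_mul_of_nonneg_left (ih fun l hl => h _ (by simp [hl])) (by linarith))

theorem Ex_congr (p : ℝ) (n : ℕ) {F G : List Bool → ℝ} (h : ∀ l, l.length = n → F l = G l) :
    Ex p n F = Ex p n G := by
  induction n generalizing F G with
  | zero => exact h [] rfl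
  | succ n ih =>
    simp only [Ex]
    rw [ih (fun l hl => h (true :: l) (by simp [hl])), ih (fun l hl => h (false :: l) (by simp [hl]))]

theorem Ex_append (p : ℝ) (n m : ℕ) (F : List Bool → ℝ) :
    Ex p (n + m) F = Ex p n (fun l => Ex p m (fun l' => F (l ++ l'))) := by
  induction n generalizing F with
  | zero => simp [Ex]
  | succ n ih =>
    rw [show n + 1 + m = (n + m) + 1 by ring]
    simp only [Ex, List.cons_append]
    rw [ih, ih]

/-- the centred step -/
def stp (p : ℝ) (b : Bool) : ℝ := (if b then 1 else 0) - p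

/-- the centred sum of a word -/
def sm (p : ℝ) (l : List Bool) : ℝ := (l.map (stp p)).sum

@[simp] theorem sm_nil (p : ℝ) : sm p [] = 0 := rfl
@[simp] theorem sm_cons (p : ℝ) (b : Bool) (l : List Bool) : sm p (b :: l) = stp p b + sm p l := by
  simp [sm]
theorem sm_append (p : ℝ) (l l' : List Bool) : sm p (l ++ l') = sm p l + sm p l' := by
  simp [sm]

theorem Ex_sm1 (p : ℝ) (n : ℕ) (x : ℝ) : Ex p n (fun l => x + sm p l) = x := by
  induction n generalizing x with
  | zero => simp [Ex]
  | succ n ih =>
    simp only [Ex, sm_cons]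
    have h1 := ih (x + stp p true)
    have h2 := ih (x + stp p false)
    simp only [add_assoc] at h1 h2
    rw [h1, h2]
    simp only [stp, if_true, Bool.false_eq_true, if_false]
    ring

theorem Ex_sm2 (p : ℝ) (n : ℕ) (x : ℝ) : Ex p n (fun l => (x + sm p l) ^ 2) = x ^ 2 + n * (p * (1 - p)) := by
  induction n generalizing x with
  | zero => simp [Ex]
  | succ n ih =>
    simp only [Ex, sm_cons]
    have h1 := ih (x + stp p true)
    have h2 := ih (x + stp p false)
    simp only [add_assoc] at h1 h2
    rw [h1, h2]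
    simp only [stp, if_true, Bool.false_eq_true, if_false]
    push_cast
    ring

theorem Ex_sm4 (p : ℝ) (n : ℕ) (x : ℝ) : Ex p n (fun l => (x + sm p l) ^ 4) = x ^ 4 + 6 * x ^ 2 * n * (p * (1 - p))
    + 4 * x * n * (p * (1 - p) * (1 - 2 * p)) + 3 * n * (n - 1) * (p * (1 - p)) ^ 2
    + n * (p * (1 - p) ^ 4 + (1 - p) * p ^ 4) := by
  induction n generalizing x with
  | zero => simp [Ex]
  | succ n ih =>
    simp only [Ex, sm_cons]
    have h1 := ih (x + stp p true)
    have h2 := ih (x + stp p false)
    simp only [add_assoc] at h1 h2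
    rw [h1, h2]
    simp only [stp, if_true, Bool.false_eq_true, if_false]
    push_cast
    ring

/-- the sum of the squares of the partial sums (all nonempty prefixes), started at `x` -/
def vv (p : ℝ) : ℝ → List Bool → ℝ
  | _, [] => 0
  | x, b :: l => (x + stp p b) ^ 2 + vv p (x + stp p b) l

theorem Ex_vv (p : ℝ) (n : ℕ) (x : ℝ) : Ex p n (fun l => vv p x l) = n * x ^ 2 + p * (1 - p) * (n * (n + 1) / 2) := by
  induction n generalizing x with
  | zero => simp [Ex, vv]
  | succ n ih =>
    simp only [Ex, vv]
    rw [Ex_add_fun, Ex_const, ih, Ex_add_fun, Ex_const, ih]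
    simp only [stp, if_true, Bool.false_eq_true, if_false]
    push_cast
    ring

theorem vv_nonneg (p x : ℝ) (l : List Bool) : 0 ≤ vv p x l := by
  induction l generalizing x with
  | nil => simp [vv]
  | cons b l ih => simp only [vv]; have := ih (x + stp p b); positivity

open Classical in
/-- indicator -/
noncomputable def ind (A : List Bool → Prop) (l : List Bool) : ℝ := if A l then 1 else 0

theorem ind_nonneg (A : List Bool → Prop) (l : List Bool) : 0 ≤ ind A l := by unfold ind; split_ifs <;> norm_num
theorem ind_le_one (A : List Bool → Prop) (l : List Bool) : ind A l ≤ 1 := by unfold ind; split_ifs <;> norm_num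

theorem Ex_sq_nonneg_cs {p : ℝ} (hp0 : 0 ≤ p) (hp1 : p ≤ 1) (n : ℕ) (F G : List Bool → ℝ) :
    (Ex p n (fun l => F l * G l)) ^ 2 ≤ Ex p n (fun l => F l ^ 2) * Ex p n (fun l => G l ^ 2) := by
  set A := Ex p n (fun l => F l ^ 2) with hA
  set B := Ex p n (fun l => F l * G l) with hB
  set D := Ex p n (fun l => G l ^ 2) with hD
  have key : ∀ t : ℝ, 0 ≤ A * t ^ 2 + 2 * B * t + D := by
    intro t
    have h : 0 ≤ Ex p n (fun l => (t * F l + G l) ^ 2) := by
      have := Ex_mono hp0 hp1 n (F := fun _ => 0) (G := fun l => (t * F l + G l) ^ 2) (fun l _ => by positivity)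
      rwa [Ex_const] at this
    have e : Ex p n (fun l => (t * F l + G l) ^ 2) = A * t ^ 2 + 2 * B * t + D := by
      have h1 : Ex p n (fun l => (t * F l + G l) ^ 2) =
          Ex p n (fun l => t ^ 2 * F l ^ 2 + (2 * t * (F l * G l) + G l ^ 2)) :=
        Ex_congr p n fun l _ => by ring
      rw [h1, Ex_add_fun, Ex_const_mul, Ex_add_fun, Ex_const_mul, ← hA, ← hB, ← hD]
      ring
    rwa [e] at h
  have hA0 : 0 ≤ A := by
    have := Ex_mono hp0 hp1 n (F := fun _ => 0) (G := fun l => F l ^ 2) (fun l _ => by positivity)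
    rwa [Ex_const] at this
  rcases hA0.eq_or_lt with h0 | h0
  · have hB0 : B = 0 := by
      by_contra hB
      have h1 := key (-(D + 1) / (2 * B))
      rw [← h0, zero_mul, zero_add] at h1
      have : 2 * B * (-(D + 1) / (2 * B)) = -(D + 1) := by field_simp
      rw [this] at h1
      linarith
    rw [hB0, ← h0]; simp
  · have h1 := key (-B / A)
    have : A * (-B / A) ^ 2 + 2 * B * (-B / A) + D = (A * D - B ^ 2) / A := by field_simp; ring
    rw [this] at h1
    have h2 := (div_nonneg_iff.mp h1)
    rcases h2 with ⟨h3, _⟩ | ⟨_, h4⟩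
    · linarith
    · linarith

end Pool.Agent.Q183.Khin
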