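import Mathlib
import Pool.Agent.Q183.Khin.Words

set_option autoImplicit false

/-!
# The one step estimate
-/

namespace Pool.Agent.Q183.Khin

variable {p : ℝ} {m : ℕ}

theorem Ex_nonneg (hp0 : 0 ≤ p) (hp1 : p ≤ 1) (n : ℕ) {F : List Bool → ℝ} (h : ∀ l, l.length = n → 0 ≤ F l) :
    0 ≤ Ex p n F := by
  have := Ex_mono hp0 hp1 n (F := fun _ => 0) (G := F) h
  rwa [Ex_const] at this

/-- Markov's inequality -/
theorem Ex_markov (hp0 : 0 ≤ p) (hp1 : p ≤ 1) (n : ℕ) {F : List Bool → ℝ} (h : ∀ l, 0 ≤ F l) {a : ℝ} (ha : 0 < a) :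
    a * Ex p n (ind fun l => a < F l) ≤ Ex p n F := by
  rw [← Ex_const_mul]
  refine Ex_mono hp0 hp1 n fun l _ => ?_
  unfold ind
  split_ifs with h1
  · linarith
  · simpa using h l

/-- lower bound for the first absolute moment -/
theorem Ex_abs_lower (hp0 : 0 < p) (hp1 : p < 1) (hm : 1 ≤ (m : ℝ) * (p * (1 - p))) :
    Real.sqrt (m * (p * (1 - p))) / 2 ≤ Ex p m (fun l => |sm p l|) := by
  set v : ℝ := (m : ℝ) * (p * (1 - p)) with hv
  have hv0 : 0 < v := by linarith
  have hq0 : 0 < p * (1 - p) := mul_pos hp0 (by linarith)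
  set A := Ex p m (fun l => |sm p l|) with hA
  set B := Ex p m (fun l => |sm p l| ^ 3) with hB
  have hA0 : 0 ≤ A := Ex_nonneg hp0.le hp1.le m fun l _ => abs_nonneg _
  have hB0 : 0 ≤ B := Ex_nonneg hp0.le hp1.le m fun l _ => by positivity
  have h2 : Ex p m (fun l => (sm p l) ^ 2) = v := by
    have := Ex_sm2 p m 0
    simp only [zero_add] at this
    rw [this, hv]; ring
  have h4 : Ex p m (fun l => (sm p l) ^ 4) ≤ 4 * v ^ 2 := by
    have := Ex_sm4 p m 0
    simp only [zero_add] at this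
    rw [this]
    have hk : p * (1 - p) ^ 4 + (1 - p) * p ^ 4 ≤ p * (1 - p) := by
      have e : p * (1 - p) - (p * (1 - p) ^ 4 + (1 - p) * p ^ 4) = 3 * (p * (1 - p)) ^ 2 := by ring
      nlinarith
    have hm0 : (0 : ℝ) ≤ m := by positivity
    have h5 : (m : ℝ) * (p * (1 - p) ^ 4 + (1 - p) * p ^ 4) ≤ v := by
      rw [hv]; exact mul_le_mul_of_nonneg_left hk hm0
    have h6 : 3 * (m : ℝ) * (m - 1) * (p * (1 - p)) ^ 2 ≤ 3 * v ^ 2 := by
      rw [hv]
      nlinarith [mul_nonneg hm0 (sq_nonneg (p * (1 - p)))]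
    nlinarith
  have c1 : v ^ 2 ≤ A * B := by
    have h := Ex_sq_nonneg_cs hp0.le hp1.le m (fun l => Real.sqrt |sm p l|) (fun l => Real.sqrt |sm p l| * |sm p l|)
    have e1 : Ex p m (fun l => Real.sqrt |sm p l| * (Real.sqrt |sm p l| * |sm p l|)) = v := by
      rw [← h2]
      refine Ex_congr p m fun l _ => ?_
      rw [← mul_assoc, Real.mul_self_sqrt (abs_nonneg _), ← sq, sq_abs]
    have e2 : Ex p m (fun l => Real.sqrt |sm p l| ^ 2) = A :=
      Ex_congr p m fun l _ => Real.sq_sqrt (abs_nonneg _)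
    have e3 : Ex p m (fun l => (Real.sqrt |sm p l| * |sm p l|) ^ 2) = B := by
      refine Ex_congr p m fun l _ => ?_
      rw [mul_pow, Real.sq_sqrt (abs_nonneg _)]; ring
    rwa [e1, e2, e3] at h
  have c2 : B ^ 2 ≤ v * (4 * v ^ 2) := by
    have h := Ex_sq_nonneg_cs hp0.le hp1.le m (fun l => |sm p l|) (fun l => (sm p l) ^ 2)
    have e1 : Ex p m (fun l => |sm p l| * (sm p l) ^ 2) = B := by
      refine Ex_congr p m fun l _ => ?_
      rw [← sq_abs]; ring
    have e2 : Ex p m (fun l => |sm p l| ^ 2) = v := by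
      rw [← h2]; exact Ex_congr p m fun l _ => sq_abs _
    have e3 : Ex p m (fun l => ((sm p l) ^ 2) ^ 2) = Ex p m (fun l => (sm p l) ^ 4) :=
      Ex_congr p m fun l _ => by ring
    rw [e1, e2, e3] at h
    exact h.trans (mul_le_mul_of_nonneg_left h4 hv0.le)
  -- `v ^ 4 ≤ A ^ 2 * 4 v ^ 3`
  have c3 : v ≤ 4 * A ^ 2 := by
    have h1 : (v ^ 2) ^ 2 ≤ (A * B) ^ 2 := pow_le_pow_left₀ (by positivity) c1 2
    have h2 : (A * B) ^ 2 ≤ A ^ 2 * (v * (4 * v ^ 2)) := by
      rw [mul_pow]; exact mul_le_mul_of_nonneg_left c2 (by positivity)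
    have h3 : v ^ 3 * v ≤ v ^ 3 * (4 * A ^ 2) := by nlinarith
    exact le_of_mul_le_mul_left h3 (by positivity)
  have h5 : Real.sqrt v ≤ 2 * A := by
    rw [Real.sqrt_le_left (by positivity)]
    nlinarith
  linarith

/-- both signs: the walk moves by a definite multiple of its standard deviation with probability `≥ 1/64` -/
theorem dir_prob (hp0 : 0 < p) (hp1 : p < 1) (hm : 1 ≤ (m : ℝ) * (p * (1 - p))) (ε : ℝ) (hε : ε = 1 ∨ ε = -1) :
    1 / 64 ≤ Ex p m (ind fun l => Real.sqrt (m * (p * (1 - p))) / 8 ≤ ε * sm p l) := by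
  set v : ℝ := (m : ℝ) * (p * (1 - p)) with hv
  have hv0 : 0 < v := by linarith
  set s := Real.sqrt v with hs
  have hs0 : 0 < s := Real.sqrt_pos.mpr hv0
  have hs2 : s ^ 2 = v := Real.sq_sqrt hv0.le
  have hA := Ex_abs_lower hp0 hp1 hm
  rw [← hv, ← hs] at hA
  have hε2 : ε ^ 2 = 1 := by rcases hε with h | h <;> rw [h] <;> norm_num
  have h2 : Ex p m (fun l => (sm p l) ^ 2) = v := by
    have := Ex_sm2 p m 0
    simp only [zero_add] at this
    rw [this, hv]; ring
  have h1 : Ex p m (fun l => sm p l) = 0 := by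
    have := Ex_sm1 p m 0
    simpa only [zero_add] using this
  set Pr := Ex p m (ind fun l => s / 8 ≤ ε * sm p l) with hPr
  have hPr0 : 0 ≤ Pr := Ex_nonneg hp0.le hp1.le m fun l _ => ind_nonneg _ _
  -- `|S| ≤ 2 (S⁺) - S`
  have key : Ex p m (fun l => |sm p l|) ≤ 2 * (s / 8 + Ex p m (fun l => ε * sm p l * ind (fun l => s / 8 ≤ ε * sm p l) l)) := by
    have h3 : Ex p m (fun l => |sm p l|) ≤
        Ex p m (fun l => -ε * sm p l + (s / 4 + 2 * (ε * sm p l * ind (fun l => s / 8 ≤ ε * sm p l) l))) := by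
      refine Ex_mono hp0.le hp1.le m fun l _ => ?_
      have habs : |sm p l| = |ε * sm p l| := by
        rw [abs_mul]
        have : |ε| = 1 := by rcases hε with h | h <;> rw [h] <;> norm_num
        rw [this, one_mul]
      rw [habs]
      unfold ind
      split_ifs with h
      · rw [abs_of_nonneg (by linarith)]
        linarith
      · push Not at h
        rcases le_total 0 (ε * sm p l) with h' | h'
        · rw [abs_of_nonneg h']; linarith
        · rw [abs_of_nonpos h']; linarith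
    rw [Ex_add_fun, Ex_const_mul, h1, Ex_add_fun, Ex_const, Ex_const_mul] at h3
    linarith
  have cs := Ex_sq_nonneg_cs hp0.le hp1.le m (fun l => ε * sm p l) (fun l => ind (fun l => s / 8 ≤ ε * sm p l) l)
  have e2 : Ex p m (fun l => (ε * sm p l) ^ 2) = v := by
    rw [← h2]; exact Ex_congr p m fun l _ => by rw [mul_pow, hε2, one_mul]
  have e3 : Ex p m (fun l => (ind (fun l => s / 8 ≤ ε * sm p l) l) ^ 2) = Pr := by
    refine Ex_congr p m fun l _ => ?_
    unfold ind; split_ifs <;> norm_num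
  rw [e2, e3] at cs
  set Y := Ex p m (fun l => ε * sm p l * ind (fun l => s / 8 ≤ ε * sm p l) l) with hY
  have hY1 : s / 8 ≤ Y := by linarith
  have h5 : (s / 8) ^ 2 ≤ v * Pr := (pow_le_pow_left₀ (by positivity) hY1 2).trans cs
  rw [← hs2] at h5
  have h6 : s ^ 2 * (1 / 64) ≤ s ^ 2 * Pr := by nlinarith
  exact le_of_mul_le_mul_left h6 (by positivity)

/-- a good step of the walk: it moves in direction `ε`, and it does not go too far -/
def Good (p : ℝ) (m : ℕ) (ε : ℝ) (l : List Bool) : Prop :=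
  Real.sqrt (m * (p * (1 - p))) / 8 ≤ ε * sm p l ∧ (sm p l) ^ 2 ≤ 324 * m ∧ vv p 0 l ≤ 81 / 2 * (m : ℝ) ^ 2

theorem good_prob (hp0 : 0 < p) (hp1 : p < 1) (hm : 1 ≤ (m : ℝ) * (p * (1 - p))) (ε : ℝ) (hε : ε = 1 ∨ ε = -1) :
    1 / 128 ≤ Ex p m (ind (Good p m ε)) := by
  have hq : p * (1 - p) ≤ 1 / 4 := by nlinarith [sq_nonneg (p - 1 / 2)]
  have hq0 : 0 < p * (1 - p) := mul_pos hp0 (by linarith)
  have hm0 : (0 : ℝ) < m := by
    by_contra hcon
    push Not at hcon
    nlinarith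
  have hm1 : (1 : ℝ) ≤ m := by
    have : 0 < m := by exact_mod_cast hm0
    exact_mod_cast this
  have h1 := dir_prob hp0 hp1 hm ε hε
  have h2 : Ex p m (ind fun l => 324 * (m : ℝ) < (sm p l) ^ 2) ≤ 1 / 1296 := by
    have h := Ex_markov hp0.le hp1.le m (F := fun l => (sm p l) ^ 2) (fun l => by positivity) (a := 324 * (m : ℝ))
      (by positivity)
    have e : Ex p m (fun l => (sm p l) ^ 2) = m * (p * (1 - p)) := by
      have := Ex_sm2 p m 0
      simp only [zero_add] at this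
      rw [this]; ring
    rw [e] at h
    have h' : 324 * (m : ℝ) * Ex p m (ind fun l => 324 * (m : ℝ) < (sm p l) ^ 2) ≤ 324 * m * (1 / 1296) := by
      refine h.trans ?_
      nlinarith
    exact le_of_mul_le_mul_left h' (by positivity)
  have h3 : Ex p m (ind fun l => 81 / 2 * (m : ℝ) ^ 2 < vv p 0 l) ≤ 1 / 162 := by
    have h := Ex_markov hp0.le hp1.le m (F := fun l => vv p 0 l) (fun l => vv_nonneg _ _ _)
      (a := 81 / 2 * (m : ℝ) ^ 2) (by positivity)
    rw [Ex_vv] at h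
    have h' : 81 / 2 * (m : ℝ) ^ 2 * Ex p m (ind fun l => 81 / 2 * (m : ℝ) ^ 2 < vv p 0 l) ≤
        81 / 2 * (m : ℝ) ^ 2 * (1 / 162) := by
      refine h.trans ?_
      have h4 : (m : ℝ) * (m + 1) / 2 ≤ (m : ℝ) ^ 2 := by nlinarith
      have h5 : p * (1 - p) * ((m : ℝ) * (m + 1) / 2) ≤ 1 / 4 * (m : ℝ) ^ 2 :=
        mul_le_mul hq h4 (by positivity) (by norm_num)
      nlinarith
    exact le_of_mul_le_mul_left h' (by positivity)
  have h4 : Ex p m (ind fun l => Real.sqrt (m * (p * (1 - p))) / 8 ≤ ε * sm p l) ≤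
      Ex p m (fun l => ind (Good p m ε) l + (ind (fun l => 324 * (m : ℝ) < (sm p l) ^ 2) l +
        ind (fun l => 81 / 2 * (m : ℝ) ^ 2 < vv p 0 l) l)) := by
    refine Ex_mono hp0.le hp1.le m fun l _ => ?_
    by_cases c1 : Real.sqrt (m * (p * (1 - p))) / 8 ≤ ε * sm p l
    · by_cases c2 : 324 * (m : ℝ) < (sm p l) ^ 2
      · have e1 : ind (fun l => 324 * (m : ℝ) < (sm p l) ^ 2) l = 1 := by unfold ind; rw [if_pos c2]
        have := ind_nonneg (Good p m ε) l
        have := ind_nonneg (fun l => 81 / 2 * (m : ℝ) ^ 2 < vv p 0 l) l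
        have := ind_le_one (fun l => Real.sqrt (m * (p * (1 - p))) / 8 ≤ ε * sm p l) l
        linarith
      · by_cases c3 : 81 / 2 * (m : ℝ) ^ 2 < vv p 0 l
        · have e1 : ind (fun l => 81 / 2 * (m : ℝ) ^ 2 < vv p 0 l) l = 1 := by unfold ind; rw [if_pos c3]
          have := ind_nonneg (Good p m ε) l
          have := ind_nonneg (fun l => 324 * (m : ℝ) < (sm p l) ^ 2) l
          have := ind_le_one (fun l => Real.sqrt (m * (p * (1 - p))) / 8 ≤ ε * sm p l) l
          linarith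
        · have e1 : ind (Good p m ε) l = 1 := by
            unfold ind; rw [if_pos ⟨c1, not_lt.mp c2, not_lt.mp c3⟩]
          have := ind_nonneg (fun l => 324 * (m : ℝ) < (sm p l) ^ 2) l
          have := ind_nonneg (fun l => 81 / 2 * (m : ℝ) ^ 2 < vv p 0 l) l
          have := ind_le_one (fun l => Real.sqrt (m * (p * (1 - p))) / 8 ≤ ε * sm p l) l
          linarith
    · have e1 : ind (fun l => Real.sqrt (m * (p * (1 - p))) / 8 ≤ ε * sm p l) l = 0 := by
        unfold ind; rw [if_neg c1]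
      have := ind_nonneg (Good p m ε) l
      have := ind_nonneg (fun l => 324 * (m : ℝ) < (sm p l) ^ 2) l
      have := ind_nonneg (fun l => 81 / 2 * (m : ℝ) ^ 2 < vv p 0 l) l
      linarith
  rw [Ex_add_fun, Ex_add_fun] at h4
  have e5 : Ex p m (fun l => ind (Good p m ε) l) = Ex p m (ind (Good p m ε)) := rfl
  have e6 : Ex p m (fun l => ind (fun l => 324 * (m : ℝ) < (sm p l) ^ 2) l) =
    Ex p m (ind fun l => 324 * (m : ℝ) < (sm p l) ^ 2) := rfl
  have e7 : Ex p m (fun l => ind (fun l => 81 / 2 * (m : ℝ) ^ 2 < vv p 0 l) l) =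
    Ex p m (ind fun l => 81 / 2 * (m : ℝ) ^ 2 < vv p 0 l) := rfl
  rw [e5, e6, e7] at h4
  linarith

end Pool.Agent.Q183.Khin
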