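import Mathlib
import Pool.Agent.Q183.Khin.Step
import Pool.Agent.Q183.Khin.Geo

set_option autoImplicit false

/-!
# Walks following a tube
-/

namespace Pool.Agent.Q183.Khin

open Finset

/-- `r` further good steps, steering towards the centres `γ` -/
def Tube (p : ℝ) (m : ℕ) (γ : ℕ → ℝ) : ℕ → ℕ → ℝ → List Bool → Prop
  | 0, _, _, _ => True
  | r + 1, k, y, l => Good p m (if γ k ≤ y then -1 else 1) (l.take m) ∧
      Tube p m γ r (k + 1) (y + sm p (l.take m)) (l.drop m)

theorem tube_prob {p : ℝ} {m : ℕ} (hp0 : 0 < p) (hp1 : p < 1) (hm : 1 ≤ (m : ℝ) * (p * (1 - p))) (γ : ℕ → ℝ)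
    (r k : ℕ) (y : ℝ) : (1 / 128) ^ r ≤ Ex p (r * m) (ind (Tube p m γ r k y)) := by
  induction r generalizing k y with
  | zero =>
    have : Ex p (0 * m) (ind (Tube p m γ 0 k y)) = 1 := by
      rw [Nat.zero_mul]
      simp [Ex, ind, Tube]
    rw [this]; norm_num
  | succ r ih =>
    rw [show (r + 1) * m = m + r * m by ring, Ex_append]
    have h1 : Ex p m (fun l => (1 / 128) ^ r * ind (Good p m (if γ k ≤ y then -1 else 1)) l) ≤
        Ex p m (fun l => Ex p (r * m) (fun l' => ind (Tube p m γ (r + 1) k y) (l ++ l'))) := by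
      refine Ex_mono hp0.le hp1.le m fun l hl => ?_
      have e : ∀ l' : List Bool, ind (Tube p m γ (r + 1) k y) (l ++ l') =
          ind (Good p m (if γ k ≤ y then -1 else 1)) l * ind (Tube p m γ r (k + 1) (y + sm p l)) l' := by
        intro l'
        have t1 : (l ++ l').take m = l := by rw [← hl]; simp
        have t2 : (l ++ l').drop m = l' := by rw [← hl]; simp
        unfold ind
        have hT : Tube p m γ (r + 1) k y (l ++ l') ↔ (Good p m (if γ k ≤ y then -1 else 1) l ∧
            Tube p m γ r (k + 1) (y + sm p l) l') := by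
          simp only [Tube]
          rw [t1, t2]
        by_cases g1 : Good p m (if γ k ≤ y then -1 else 1) l
        · by_cases g2 : Tube p m γ r (k + 1) (y + sm p l) l'
          · rw [if_pos (hT.mpr ⟨g1, g2⟩), if_pos g1, if_pos g2, mul_one]
          · rw [if_neg (fun h => g2 (hT.mp h).2), if_pos g1, if_neg g2, mul_zero]
        · rw [if_neg (fun h => g1 (hT.mp h).1), if_neg g1, zero_mul]
      simp_rw [e]
      rw [Ex_const_mul, mul_comm]
      exact mul_le_mul_of_nonneg_left (ih (k + 1) (y + sm p l)) (ind_nonneg _ _)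
    refine le_trans ?_ h1
    rw [Ex_const_mul, pow_succ]
    refine mul_le_mul_of_nonneg_left ?_ (by positivity)
    refine good_prob hp0 hp1 hm _ ?_
    split_ifs
    · exact Or.inr rfl
    · exact Or.inl rfl

/-- the window of length `n` starting at `M` -/
def win (b : ℕ → Bool) (M n : ℕ) : List Bool := (List.range n).map fun i => b (M + i)

@[simp] theorem win_length (b : ℕ → Bool) (M n : ℕ) : (win b M n).length = n := by simp [win]

theorem win_succ (b : ℕ → Bool) (M n : ℕ) : win b M (n + 1) = b M :: win b (M + 1) n := by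
  rw [win, List.range_succ_eq_map, List.map_cons, List.map_map, win, add_zero]
  congr 1
  refine List.map_congr_left fun i _ => ?_
  simp only [Function.comp]
  congr 1
  omega

theorem win_append (b : ℕ → Bool) (M n k : ℕ) : win b M (n + k) = win b M n ++ win b (M + n) k := by
  induction n generalizing M with
  | zero => simp [win]
  | succ n ih =>
    rw [show n + 1 + k = (n + k) + 1 by ring, win_succ, ih, win_succ, List.cons_append,
      show M + 1 + n = M + (n + 1) by ring]

theorem win_take (b : ℕ → Bool) (M : ℕ) {n k : ℕ} (h : k ≤ n) : (win b M n).take k = win b M k := by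
  obtain ⟨d, rfl⟩ := Nat.exists_eq_add_of_le h
  rw [win_append]
  exact List.take_left' (win_length b M k)

theorem win_drop (b : ℕ → Bool) (M n k : ℕ) : (win b M (k + n)).drop k = win b (M + k) n := by
  rw [win_append]
  exact List.drop_left' (win_length b M k)

/-- the centred path -/
noncomputable def cen (p : ℝ) (b : ℕ → Bool) (n : ℕ) : ℝ := (cnt b n : ℝ) - p * n

theorem cen_succ (p : ℝ) (b : ℕ → Bool) (n : ℕ) : cen p b (n + 1) = cen p b n + stp p (b n) := by
  rw [cen, cen, cnt, sum_range_succ, ← cnt, stp]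
  push_cast
  ring

theorem sm_win (p : ℝ) (b : ℕ → Bool) (M n : ℕ) : sm p (win b M n) = cen p b (M + n) - cen p b M := by
  induction n generalizing M with
  | zero => simp [win]
  | succ n ih =>
    rw [win_succ, sm_cons, ih, show M + 1 + n = M + (n + 1) by ring, cen_succ p b M]
    ring

theorem vv_win (p : ℝ) (b : ℕ → Bool) (x : ℝ) (M n : ℕ) :
    vv p x (win b M n) = ∑ i ∈ range n, (x + (cen p b (M + (i + 1)) - cen p b M)) ^ 2 := by
  induction n generalizing M x with
  | zero => simp [win, vv]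
  | succ n ih =>
    rw [win_succ, vv, ih, sum_range_succ']
    rw [add_comm]
    congr 1
    · refine sum_congr rfl fun i _ => ?_
      rw [show M + 1 + (i + 1) = M + (i + 1 + 1) by ring, cen_succ p b M]
      ring
    · rw [zero_add, cen_succ p b M]
      ring

theorem abs_cen_le {p : ℝ} (hp0 : 0 ≤ p) (hp1 : p ≤ 1) (b : ℕ → Bool) (n : ℕ) : |cen p b n| ≤ n := by
  have h1 : (cnt b n : ℝ) ≤ n := by exact_mod_cast cnt_le b n
  have h2 : (0 : ℝ) ≤ cnt b n := by positivity
  have h3 : p * n ≤ n := by nlinarith [show (0 : ℝ) ≤ n by positivity]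
  have h4 : 0 ≤ p * (n : ℝ) := by positivity
  rw [cen, abs_le]
  constructor <;> linarith

/-- consequences of following the tube, for scale `m = t²` -/
theorem tube_inv {p : ℝ} (hp0 : 0 < p) (hp1 : p < 1) {t : ℕ} (γ : ℕ → ℝ)
    (hγ : ∀ k, |γ (k + 1) - γ k| ≤ Real.sqrt ((t ^ 2 : ℕ) * (p * (1 - p))) / 8) (b : ℕ → Bool) (r k M : ℕ) (y : ℝ)
    (hy : |y - γ k| ≤ 36 * t) (hT : Tube p (t ^ 2) γ r k y (win b M (r * t ^ 2))) :
    (∀ i ≤ r, |y + (cen p b (M + i * t ^ 2) - cen p b M) - γ (k + i)| ≤ 36 * t) ∧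
    ∀ i < r, ∑ j ∈ range (t ^ 2), (cen p b (M + i * t ^ 2 + (j + 1)) - cen p b (M + i * t ^ 2)) ^ 2 ≤
      81 / 2 * ((t ^ 2 : ℕ) : ℝ) ^ 2 := by
  induction r generalizing k M y with
  | zero =>
    refine ⟨fun i hi => ?_, fun i hi => absurd hi (by omega)⟩
    have : i = 0 := by omega
    subst this
    simpa using hy
  | succ r ih =>
    have hlen : (r + 1) * t ^ 2 = t ^ 2 + r * t ^ 2 := by ring
    rw [hlen] at hT
    simp only [Tube] at hT
    rw [win_take b M (Nat.le_add_right _ _), win_drop, sm_win] at hT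
    obtain ⟨⟨hg1, hg2, hg3⟩, hT2⟩ := hT
    rw [sm_win] at hg1 hg2
    set s := Real.sqrt ((t ^ 2 : ℕ) * (p * (1 - p))) with hs
    have hs0 : 0 ≤ s := Real.sqrt_nonneg _
    have hq : p * (1 - p) ≤ 1 / 4 := by nlinarith [sq_nonneg (p - 1 / 2)]
    have hst : s ≤ t := by
      rw [hs, Real.sqrt_le_left (by positivity)]
      push_cast
      nlinarith [show (0 : ℝ) ≤ (t : ℝ) ^ 2 by positivity]
    set d := cen p b (M + t ^ 2) - cen p b M with hd
    have hd18 : |d| ≤ 18 * t := by
      have : d ^ 2 ≤ (18 * (t : ℝ)) ^ 2 := by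
        refine hg2.trans (le_of_eq ?_)
        push_cast; ring
      exact abs_le_of_sq_le_sq this (by positivity)
    have hy' : |y + d - γ (k + 1)| ≤ 36 * t := by
      have h1 := hγ k
      rw [abs_le] at h1 hy hd18 ⊢
      have ht0 : (0 : ℝ) ≤ t := by positivity
      split_ifs at hg1 with hc
      · constructor <;> linarith
      · push Not at hc
        constructor <;> linarith
    obtain ⟨ih1, ih2⟩ := ih (k + 1) (M + t ^ 2) (y + d) hy' hT2
    refine ⟨fun i hi => ?_, fun i hi => ?_⟩
    · cases i with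
      | zero => simpa using hy
      | succ i =>
        have := ih1 i (by omega)
        have e1 : M + (i + 1) * t ^ 2 = M + t ^ 2 + i * t ^ 2 := by ring
        have e2 : k + (i + 1) = k + 1 + i := by ring
        rw [e1, e2]
        have e3 : y + d + (cen p b (M + t ^ 2 + i * t ^ 2) - cen p b (M + t ^ 2)) =
            y + (cen p b (M + t ^ 2 + i * t ^ 2) - cen p b M) := by rw [hd]; ring
        rwa [e3] at this
    · cases i with
      | zero =>
        rw [vv_win] at hg3
        simpa using hg3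
      | succ i =>
        have := ih2 i (by omega)
        have e1 : M + (i + 1) * t ^ 2 = M + t ^ 2 + i * t ^ 2 := by ring
        rw [e1]
        exact this

/-- few bad times in a good step -/
theorem few_bad {p : ℝ} {t : ℕ} (ht : 0 < t) (b : ℕ → Bool) (M : ℕ)
    (h : ∑ j ∈ range (t ^ 2), (cen p b (M + (j + 1)) - cen p b M) ^ 2 ≤ 81 / 2 * ((t ^ 2 : ℕ) : ℝ) ^ 2) :
    8 * ((Ioc M (M + t ^ 2)).filter fun n => 18 * (t : ℝ) < |cen p b n - cen p b M|).card ≤ t ^ 2 := by
  classical
  set F := (range (t ^ 2)).filter fun j => 18 * (t : ℝ) < |cen p b (M + (j + 1)) - cen p b M| with hF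
  have h1 : ((Ioc M (M + t ^ 2)).filter fun n => 18 * (t : ℝ) < |cen p b n - cen p b M|).card ≤ F.card := by
    refine card_le_card_of_injOn (fun n => n - M - 1) ?_ ?_
    · intro n hn
      simp only [coe_filter, mem_Ioc, Set.mem_ofPred_eq] at hn
      simp only [hF, coe_filter, mem_range, Set.mem_ofPred_eq]
      have e : M + (n - M - 1 + 1) = n := by omega
      refine ⟨by omega, ?_⟩
      rw [e]
      exact hn.2
    · intro n hn n' hn' heq
      simp only [coe_filter, mem_Ioc, Set.mem_ofPred_eq] at hn hn' heq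
      omega
  have h2 : (F.card : ℝ) * (18 * (t : ℝ)) ^ 2 ≤ 81 / 2 * ((t ^ 2 : ℕ) : ℝ) ^ 2 := by
    refine le_trans ?_ h
    calc (F.card : ℝ) * (18 * (t : ℝ)) ^ 2 = ∑ _j ∈ F, (18 * (t : ℝ)) ^ 2 := by
          rw [sum_const, nsmul_eq_mul]
      _ ≤ ∑ j ∈ F, (cen p b (M + (j + 1)) - cen p b M) ^ 2 := by
          refine sum_le_sum fun j hj => ?_
          have := (mem_filter.mp hj).2
          rw [← sq_abs (cen p b (M + (j + 1)) - cen p b M)]
          exact pow_le_pow_left₀ (by positivity) this.le 2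
      _ ≤ _ := sum_le_sum_of_subset_of_nonneg (filter_subset _ _) fun j _ _ => by positivity
  have ht' : (0 : ℝ) < (t : ℝ) ^ 2 := by positivity
  have h3 : 8 * (F.card : ℝ) ≤ (t : ℝ) ^ 2 := by
    push_cast at h2
    have h4 : (324 * (t : ℝ) ^ 2) * F.card ≤ (324 * (t : ℝ) ^ 2) * ((t : ℝ) ^ 2 / 8) := by nlinarith
    have h5 := le_of_mul_le_mul_left h4 (by positivity)
    linarith
  have h6 : 8 * F.card ≤ t ^ 2 := by exact_mod_cast h3
  omega

end Pool.Agent.Q183.Khin
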