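import Mathlib
import Pool.Agent.Q183.Khin.Tube

set_option autoImplicit false

/-!
# Following the tube gives rich data
-/

namespace Pool.Agent.Q183.Khin

open Finset

/-- beginning of the `j`-th block (in steps) -/
def ss (D : ℕ) : ℕ → ℕ
  | 0 => 0
  | j + 1 => 4 * (ss D j + 1) + D

/-- end of the `j`-th block -/
def ee (D j : ℕ) : ℕ := 4 * (ss D j + 1)

theorem ss_succ (D j : ℕ) : ss D (j + 1) = ee D j + D := rfl

theorem ss_mono (D : ℕ) : Monotone (ss D) :=
  monotone_nat_of_le_succ fun j => by rw [ss]; omega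

theorem ee_mono (D : ℕ) : Monotone (ee D) := fun i j h => by
  have := ss_mono D h
  simp only [ee]; omega

/-- ramps -/
noncomputable def ramp (D j k : ℕ) : ℝ := min 1 (max 0 (((k : ℝ) - ee D j) / D))

theorem ramp_lip {D : ℕ} (hD : 0 < D) (j k : ℕ) : |ramp D j (k + 1) - ramp D j k| ≤ 1 / D := by
  have hD' : (0 : ℝ) < D := by exact_mod_cast hD
  have h1 : |ramp D j (k + 1) - ramp D j k| ≤ |(((k + 1 : ℕ) : ℝ) - ee D j) / D - ((k : ℝ) - ee D j) / D| := by
    unfold ramp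
    refine (abs_min_sub_min_le_max _ _ _ _).trans ?_
    rw [sub_self, abs_zero, max_le_iff]
    refine ⟨abs_nonneg _, ?_⟩
    refine (abs_max_sub_max_le_max _ _ _ _).trans ?_
    rw [sub_self, abs_zero, max_le_iff]
    exact ⟨abs_nonneg _, le_rfl⟩
  refine h1.trans (le_of_eq ?_)
  rw [← sub_div]
  push_cast
  rw [show (k : ℝ) + 1 - ee D j - (k - ee D j) = 1 by ring, abs_of_pos (by positivity)]

theorem ramp_one {D : ℕ} (hD : 0 < D) {i j k : ℕ} (hij : i < j) (hk : ss D j ≤ k) : ramp D i k = 1 := by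
  have hD' : (0 : ℝ) < D := by exact_mod_cast hD
  have h1 : ee D i + D ≤ k := by
    rw [← ss_succ]
    exact (ss_mono D hij).trans hk
  have h2 : (1 : ℝ) ≤ ((k : ℝ) - ee D i) / D := by
    rw [le_div_iff₀ hD', one_mul]
    have : ((ee D i + D : ℕ) : ℝ) ≤ k := by exact_mod_cast h1
    push_cast at this
    linarith
  unfold ramp
  exact min_eq_left (h2.trans (le_max_right _ _))

theorem ramp_zero {D : ℕ} {i j k : ℕ} (hij : j ≤ i) (hk : k ≤ ee D j) : ramp D i k = 0 := by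
  have h1 : k ≤ ee D i := hk.trans (ee_mono D hij)
  have h2 : ((k : ℝ) - ee D i) / D ≤ 0 := by
    refine div_nonpos_of_nonpos_of_nonneg ?_ (by positivity)
    have : (k : ℝ) ≤ ee D i := by exact_mod_cast h1
    linarith
  unfold ramp
  rw [max_eq_left h2]
  norm_num

/-- the normalised centre path -/
noncomputable def gg (J D k : ℕ) : ℝ := ∑ j ∈ range J, ramp D j k

theorem gg_lip {D : ℕ} (hD : 0 < D) (J k : ℕ) : |gg J D (k + 1) - gg J D k| ≤ J / D := by
  rw [gg, gg, ← sum_sub_distrib]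
  refine (abs_sum_le_sum_abs _ _).trans ?_
  refine (sum_le_sum fun j _ => ramp_lip hD j k).trans (le_of_eq ?_)
  rw [sum_const, card_range, nsmul_eq_mul]; ring

theorem gg_eq {D : ℕ} (hD : 0 < D) {J j k : ℕ} (hj : j ≤ J) (h1 : ss D j ≤ k) (h2 : k ≤ ee D j) :
    gg J D k = j := by
  obtain ⟨d, rfl⟩ := Nat.exists_eq_add_of_le hj
  rw [gg, sum_range_add]
  rw [sum_congr rfl fun i hi => ramp_one hD (mem_range.mp hi) h1]
  rw [sum_eq_zero (s := range d) fun i _ => ramp_zero (Nat.le_add_right j i) h2]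
  simp

/-- the centres -/
noncomputable def gam (J D t k : ℕ) : ℝ := (112 * t + 1) * gg J D k

theorem tube_rich {p : ℝ} (hp0 : 0 < p) (hp1 : p < 1) (b : ℕ → Bool) {t M J D C n₀ : ℕ} (hD : 0 < D)
    (hJ : 6 * C < J) (hDJ : 904 * (J : ℝ) ≤ D * Real.sqrt (p * (1 - p))) (ht : 0 < t) (hM : M ≤ t) (hn : n₀ ≤ M)
    (hT : Tube p (t ^ 2) (gam J D t) (ss D J) 0 0 (win b M (ss D J * t ^ 2))) :
    ∃ S Z : Finset ℕ, 0 < Z.card ∧ C * S.card ≤ Z.card ∧ (∀ z ∈ Z, 0 < z) ∧ ∀ z ∈ Z, ∃ N, n₀ ≤ N ∧ 0 < N ∧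
      N ≤ 2 * ((Icc 1 N).filter fun i => ∃ s ∈ S, s * lamB b i = z).card := by
  classical
  have ht1 : (1 : ℝ) ≤ t := by exact_mod_cast ht
  have hD' : (0 : ℝ) < D := by exact_mod_cast hD
  have hγ : ∀ k, |gam J D t (k + 1) - gam J D t k| ≤ Real.sqrt ((t ^ 2 : ℕ) * (p * (1 - p))) / 8 := by
    intro k
    have e1 : Real.sqrt ((t ^ 2 : ℕ) * (p * (1 - p))) = t * Real.sqrt (p * (1 - p)) := by
      rw [Real.sqrt_mul (by positivity)]
      push_cast
      rw [Real.sqrt_sq (by positivity)]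
    rw [e1, gam, gam, ← mul_sub, abs_mul, abs_of_pos (by positivity)]
    have h1 := gg_lip hD J k
    calc (112 * (t : ℝ) + 1) * |gg J D (k + 1) - gg J D k| ≤ (113 * t) * (J / D) :=
          mul_le_mul (by linarith) h1 (abs_nonneg _) (by positivity)
      _ = t * (113 * J / D) := by ring
      _ ≤ t * (Real.sqrt (p * (1 - p)) / 8) := by
          refine mul_le_mul_of_nonneg_left ?_ (by positivity)
          rw [div_le_div_iff₀ hD' (by norm_num)]
          linarith
      _ = _ := by ring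
  have hγ0 : gam J D t 0 = 0 := by
    rw [gam, gg_eq hD (j := 0) (Nat.zero_le _) (by simp [ss]) (Nat.zero_le _)]
    simp
  obtain ⟨hi1, hi2⟩ := tube_inv hp0 hp1 (gam J D t) hγ b (ss D J) 0 M 0 (by rw [hγ0]; simp) hT
  refine geo hp0.le hp1.le b (h := 56 * t) (J := J) (fun j => (112 * t + 1 : ℤ) * j) (fun j => M + ee D j * t ^ 2)
    hJ ?_ ?_
  · intro j _ j' _ hne
    rw [← mul_sub, abs_mul]
    have h1 : (1 : ℤ) ≤ |(j : ℤ) - j'| := Int.one_le_abs (sub_ne_zero.mpr (by exact_mod_cast hne))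
    have h2 : |(112 * (t : ℤ) + 1)| = 112 * t + 1 := abs_of_pos (by positivity)
    rw [h2]
    push_cast
    nlinarith [show (0 : ℤ) ≤ t by positivity]
  · intro j hj
    have hee : ee D j = 4 * ss D j + 4 := by simp only [ee]; ring
    have ht2 : 0 < t ^ 2 := by positivity
    refine ⟨by omega, by have : 0 < ee D j * t ^ 2 := Nat.mul_pos (by omega) ht2; omega, ?_⟩
    -- bad times
    set Bk : ℕ → Finset ℕ := fun k => (Ioc (M + k * t ^ 2) (M + k * t ^ 2 + t ^ 2)).filter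
      fun n => 18 * (t : ℝ) < |cen p b n - cen p b (M + k * t ^ 2)| with hBk
    have heK : ∀ k < ee D j, k < ss D J := by
      intro k hk
      have h1 : ss D (j + 1) ≤ ss D J := ss_mono D hj
      rw [ss_succ] at h1
      omega
    have hBkcard : ∀ k ∈ Ico (ss D j) (ee D j), 8 * (Bk k).card ≤ t ^ 2 := by
      intro k hk
      rw [mem_Ico] at hk
      exact few_bad ht b (M + k * t ^ 2) (hi2 k (heK k hk.2))
    have hBadcard : 8 * ((Ico (ss D j) (ee D j)).biUnion Bk).card ≤ (ee D j - ss D j) * t ^ 2 := by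
      calc 8 * ((Ico (ss D j) (ee D j)).biUnion Bk).card ≤ 8 * ∑ k ∈ Ico (ss D j) (ee D j), (Bk k).card :=
            Nat.mul_le_mul_left _ card_biUnion_le
        _ = ∑ k ∈ Ico (ss D j) (ee D j), 8 * (Bk k).card := mul_sum _ _ _
        _ ≤ ∑ _k ∈ Ico (ss D j) (ee D j), t ^ 2 := sum_le_sum hBkcard
        _ = _ := by rw [sum_const, Nat.card_Ico, smul_eq_mul]
    have hsub : (Ioc (M + ss D j * t ^ 2) (M + ee D j * t ^ 2)) \ ((Ico (ss D j) (ee D j)).biUnion Bk) ⊆
        (Icc 1 (M + ee D j * t ^ 2)).filter fun n : ℕ =>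
          |(cnt b n : ℤ) - ⌊p * (n : ℝ)⌋ - (112 * (t : ℤ) + 1) * (j : ℤ)| ≤ ((56 * t : ℕ) : ℤ) := by
      intro n hn
      rw [mem_sdiff, mem_Ioc] at hn
      obtain ⟨⟨hn1, hn2⟩, hn3⟩ := hn
      rw [mem_filter, mem_Icc]
      refine ⟨⟨by omega, hn2⟩, ?_⟩
      set k := (n - M - 1) / t ^ 2 with hk
      have hk1 : k * t ^ 2 ≤ n - M - 1 := Nat.div_mul_le_self _ _
      have hk2 : n - M - 1 < k * t ^ 2 + t ^ 2 := by
        have := Nat.lt_div_mul_add (a := n - M - 1) ht2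
        exact this
      have hks : ss D j ≤ k := by
        rw [hk, Nat.le_div_iff_mul_le ht2]
        omega
      have hke : k < ee D j := by
        rw [hk, Nat.div_lt_iff_lt_mul ht2]
        omega
      have hnB : n ∉ Bk k := fun h => hn3 (mem_biUnion.mpr ⟨k, mem_Ico.mpr ⟨hks, hke⟩, h⟩)
      have h18 : |cen p b n - cen p b (M + k * t ^ 2)| ≤ 18 * t := by
        by_contra hcon
        push Not at hcon
        exact hnB (mem_filter.mpr ⟨mem_Ioc.mpr ⟨by omega, by omega⟩, hcon⟩)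
      have h36 := hi1 k (heK k hke).le
      rw [zero_add, zero_add] at h36
      have hgam : gam J D t k = (112 * t + 1) * j := by
        rw [gam, gg_eq hD hj.le hks hke.le]
      rw [hgam] at h36
      have hM' := abs_cen_le hp0.le hp1.le b M
      have hMt : (M : ℝ) ≤ t := by exact_mod_cast hM
      have hfl1 := Int.floor_le (p * (n : ℝ))
      have hfl2 := Int.lt_floor_add_one (p * (n : ℝ))
      have hcen : cen p b n = (cnt b n : ℝ) - p * n := rfl
      rw [hcen] at h18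
      rw [abs_le] at h18 h36 hM'
      have hreal : |((((cnt b n : ℤ) - ⌊p * (n : ℝ)⌋ - (112 * (t : ℤ) + 1) * (j : ℤ)) : ℤ) : ℝ)| ≤ 56 * (t : ℝ) := by
        push_cast
        rw [abs_le]
        constructor <;> linarith
      rw [← Int.cast_abs] at hreal
      have : ((|(cnt b n : ℤ) - ⌊p * (n : ℝ)⌋ - (112 * (t : ℤ) + 1) * (j : ℤ)| : ℤ) : ℝ) ≤ (((56 * t : ℕ) : ℤ) : ℝ) := by
        push_cast
        push_cast at hreal
        exact hreal
      exact_mod_cast this
    have hcard := card_le_card hsub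
    have h1 := le_card_sdiff ((Ico (ss D j) (ee D j)).biUnion Bk) (Ioc (M + ss D j * t ^ 2) (M + ee D j * t ^ 2))
    rw [Nat.card_Ioc] at h1
    have h2 : M + ee D j * t ^ 2 - (M + ss D j * t ^ 2) = (ee D j - ss D j) * t ^ 2 := by
      rw [Nat.sub_mul]; omega
    rw [h2] at h1
    have h3 : ee D j - ss D j = 3 * ss D j + 4 := by omega
    rw [h3] at h1 hBadcard
    have h4 : M ≤ t ^ 2 := hM.trans (by nlinarith)
    have h5 : ee D j * t ^ 2 = 4 * (ss D j * t ^ 2) + 4 * t ^ 2 := by rw [hee]; ring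
    have h6 : (3 * ss D j + 4) * t ^ 2 = 3 * (ss D j * t ^ 2) + 4 * t ^ 2 := by ring
    rw [h6] at h1 hBadcard
    refine le_trans ?_ (Nat.mul_le_mul_left 2 (h1.trans hcard))
    rw [h5]
    omega

end Pool.Agent.Q183.Khin
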