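import Mathlib
import Pool.Agent.Q183.Khin.TubeRich

set_option autoImplicit false

/-!
# Independent letters: almost surely rich
-/

namespace Pool.Agent.Q183.Khin

open Finset MeasureTheory ProbabilityTheory Filter Topology
open scoped ENNReal

/-- length of the window started at `M` -/
def len (K t₀ M : ℕ) : ℕ := K * (M + t₀) ^ 2

/-- total length of `I` consecutive windows -/
def Tot (K t₀ : ℕ) : ℕ → ℕ → ℕ
  | 0, _ => 0
  | I + 1, M => len K t₀ M + Tot K t₀ I (M + len K t₀ M)

/-- the tube is followed in none of `I` consecutive windows -/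
def Fail (p : ℝ) (J D t₀ : ℕ) : ℕ → ℕ → List Bool → Prop
  | 0, _, _ => True
  | I + 1, M, l => ¬ Tube p ((M + t₀) ^ 2) (gam J D (M + t₀)) (ss D J) 0 0 (l.take (len (ss D J) t₀ M)) ∧
      Fail p J D t₀ I (M + len (ss D J) t₀ M) (l.drop (len (ss D J) t₀ M))

theorem fail_prob {p : ℝ} (hp0 : 0 < p) (hp1 : p < 1) {J D t₀ : ℕ} (ht : 1 ≤ ((t₀ ^ 2 : ℕ) : ℝ) * (p * (1 - p)))
    (I M : ℕ) : Ex p (Tot (ss D J) t₀ I M) (ind (Fail p J D t₀ I M)) ≤ (1 - (1 / 128) ^ (ss D J)) ^ I := by
  induction I generalizing M with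
  | zero =>
    simp [Tot, Ex, ind, Fail]
  | succ I ih =>
    rw [Tot, Ex_append]
    set K := ss D J with hK
    have hq : (0 : ℝ) ≤ 1 - (1 / 128) ^ K := by
      have : ((1 : ℝ) / 128) ^ K ≤ 1 := pow_le_one₀ (by norm_num) (by norm_num)
      linarith
    have h1 : Ex p (len K t₀ M) (fun l => Ex p (Tot K t₀ I (M + len K t₀ M)) (fun l' =>
        ind (Fail p J D t₀ (I + 1) M) (l ++ l'))) ≤
        Ex p (len K t₀ M) (fun l => (1 - (1 / 128) ^ K) ^ I *
          (1 + (-1) * ind (Tube p ((M + t₀) ^ 2) (gam J D (M + t₀)) K 0 0) l)) := by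
      refine Ex_mono hp0.le hp1.le _ fun l hl => ?_
      have e : ∀ l' : List Bool, ind (Fail p J D t₀ (I + 1) M) (l ++ l') =
          (1 + (-1) * ind (Tube p ((M + t₀) ^ 2) (gam J D (M + t₀)) K 0 0) l) *
            ind (Fail p J D t₀ I (M + len K t₀ M)) l' := by
        intro l'
        have t1 : (l ++ l').take (len K t₀ M) = l := by rw [← hl]; simp
        have t2 : (l ++ l').drop (len K t₀ M) = l' := by rw [← hl]; simp
        have hF : Fail p J D t₀ (I + 1) M (l ++ l') ↔
            (¬ Tube p ((M + t₀) ^ 2) (gam J D (M + t₀)) K 0 0 l ∧ Fail p J D t₀ I (M + len K t₀ M) l') := by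
          simp only [Fail]
          rw [← hK, t1, t2]
        unfold ind
        by_cases g1 : Tube p ((M + t₀) ^ 2) (gam J D (M + t₀)) K 0 0 l
        · rw [if_neg (fun h => (hF.mp h).1 g1), if_pos g1]; norm_num
        · by_cases g2 : Fail p J D t₀ I (M + len K t₀ M) l'
          · rw [if_pos (hF.mpr ⟨g1, g2⟩), if_neg g1, if_pos g2]; norm_num
          · rw [if_neg (fun h => g2 (hF.mp h).2), if_neg g1, if_neg g2]; norm_num
      simp_rw [e]
      rw [Ex_const_mul, mul_comm]
      refine mul_le_mul_of_nonneg_right (ih _) ?_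
      have := ind_le_one (Tube p ((M + t₀) ^ 2) (gam J D (M + t₀)) K 0 0) l
      linarith
    refine h1.trans ?_
    rw [Ex_const_mul, Ex_add_fun, Ex_const, Ex_const_mul, pow_succ (1 - (1 / 128 : ℝ) ^ K) I]
    refine mul_le_mul_of_nonneg_left ?_ (pow_nonneg hq I)
    have ht' : 1 ≤ (((M + t₀) ^ 2 : ℕ) : ℝ) * (p * (1 - p)) := by
      refine ht.trans (mul_le_mul_of_nonneg_right ?_ (mul_pos hp0 (by linarith)).le)
      exact_mod_cast Nat.pow_le_pow_left (Nat.le_add_left t₀ M) 2
    have h2 := tube_prob hp0 hp1 ht' (gam J D (M + t₀)) K 0 0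
    have h3 : Ex p (len K t₀ M) (fun l => ind (Tube p ((M + t₀) ^ 2) (gam J D (M + t₀)) K 0 0) l) =
      Ex p (K * (M + t₀) ^ 2) (ind (Tube p ((M + t₀) ^ 2) (gam J D (M + t₀)) K 0 0)) := rfl
    rw [h3]
    linarith

variable {Ω : Type*} [MeasurableSpace Ω] {P : Measure Ω} [IsProbabilityMeasure P] {b : ℕ → Ω → Bool} {p : ℝ}

theorem win_congr {b b' : ℕ → Bool} {M n : ℕ} (h : ∀ i, M ≤ i → i < M + n → b i = b' i) : win b M n = win b' M n := by
  unfold win
  refine List.map_congr_left fun i hi => ?_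
  rw [List.mem_range] at hi
  exact h _ (by omega) (by omega)

/-- the law of a window of independent letters -/
theorem win_law (hp0 : 0 ≤ p) (hp1 : p ≤ 1) (hb : ∀ i, Measurable (b i)) (hind : iIndepFun b P)
    (hlaw : ∀ i, P {ω | b i ω = true} = ENNReal.ofReal p) (n : ℕ) : ∀ (M : ℕ) (A : List Bool → Prop),
    P {ω | A (win (fun i => b i ω) M n)} = ENNReal.ofReal (Ex p n (ind A)) := by
  classical
  have hlaw' : ∀ i, P {ω | b i ω = false} = ENNReal.ofReal (1 - p) := by
    intro i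
    have h1 : {ω | b i ω = false} = {ω | b i ω = true}ᶜ := by
      ext ω; simp
    have hm : MeasurableSet {ω | b i ω = true} := hb i (measurableSet_singleton true)
    rw [h1, prob_compl_eq_one_sub hm, hlaw, ENNReal.ofReal_sub _ hp0, ENNReal.ofReal_one]
  induction n with
  | zero =>
    intro M A
    simp only [win, List.range_zero, List.map_nil, Ex, ind]
    split_ifs with h
    · simp [h]
    · simp [h]
  | succ n ih =>
    intro M A
    set S : Finset ℕ := Finset.Ico (M + 1) (M + 1 + n) with hS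
    have hdisj : Disjoint S {M} := by
      rw [Finset.disjoint_singleton_right, hS, Finset.mem_Ico]; omega
    have hI := hind.indepFun_finset S {M} hdisj hb
    -- extension of a tuple
    set xt : (S → Bool) → ℕ → Bool := fun x i => if h : i ∈ S then x ⟨i, h⟩ else false with hxt
    have hwin : ∀ ω, win (xt fun i => b i ω) (M + 1) n = win (fun i => b i ω) (M + 1) n := by
      intro ω
      refine win_congr fun i h1 h2 => ?_
      have hi : i ∈ S := by rw [hS, Finset.mem_Ico]; exact ⟨h1, h2⟩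
      simp only [hxt, dif_pos hi]
    have hprod : ∀ c : Bool, P ({ω | b M ω = c} ∩ {ω | A (c :: win (fun i => b i ω) (M + 1) n)}) =
        P {ω | b M ω = c} * P {ω | A (c :: win (fun i => b i ω) (M + 1) n)} := by
      intro c
      have h1 := hI.measure_inter_preimage_eq_mul {x | A (c :: win (xt x) (M + 1) n)}
        {y | y ⟨M, Finset.mem_singleton_self M⟩ = c}
        (Set.toFinite {x : S → Bool | A (c :: win (xt x) (M + 1) n)}).measurableSet
        (Set.toFinite {y : ({M} : Finset ℕ) → Bool | y ⟨M, Finset.mem_singleton_self M⟩ = c}).measurableSet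
      have e1 : (fun ω (i : S) => b i ω) ⁻¹' {x | A (c :: win (xt x) (M + 1) n)} =
          {ω | A (c :: win (fun i => b i ω) (M + 1) n)} := by
        ext ω
        simp only [Set.mem_preimage, Set.mem_ofPred_eq]
        rw [hwin]
      have e2 : (fun ω (i : ({M} : Finset ℕ)) => b i ω) ⁻¹' {y | y ⟨M, Finset.mem_singleton_self M⟩ = c} =
          {ω | b M ω = c} := by
        ext ω
        simp only [Set.mem_preimage, Set.mem_ofPred_eq]
      rw [e1, e2] at h1
      rw [Set.inter_comm, h1, mul_comm]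
    have hsplit : {ω | A (win (fun i => b i ω) M (n + 1))} =
        ({ω | b M ω = true} ∩ {ω | A (true :: win (fun i => b i ω) (M + 1) n)}) ∪
        ({ω | b M ω = false} ∩ {ω | A (false :: win (fun i => b i ω) (M + 1) n)}) := by
      ext ω
      simp only [Set.mem_ofPred_eq, Set.mem_union, Set.mem_inter_iff, win_succ]
      cases hc : b M ω <;> simp
    have hm : MeasurableSet ({ω | b M ω = false} ∩ {ω | A (false :: win (fun i => b i ω) (M + 1) n)}) := by
      refine (hb M (measurableSet_singleton false)).inter ?_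
      have e1 : {ω | A (false :: win (fun i => b i ω) (M + 1) n)} =
          (fun ω (i : S) => b i ω) ⁻¹' {x | A (false :: win (xt x) (M + 1) n)} := by
        ext ω
        simp only [Set.mem_preimage, Set.mem_ofPred_eq]
        rw [hwin]
      rw [e1]
      have hmm : Measurable (fun ω (i : S) => b i ω) := measurable_pi_lambda _ fun i => hb i
      exact hmm (Set.toFinite {x : S → Bool | A (false :: win (xt x) (M + 1) n)}).measurableSet
    rw [hsplit, measure_union _ hm, hprod, hprod, hlaw, hlaw', ih (M + 1) (fun l => A (true :: l)),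
      ih (M + 1) (fun l => A (false :: l))]
    · rw [← ENNReal.ofReal_mul hp0, ← ENNReal.ofReal_mul (by linarith), ← ENNReal.ofReal_add]
      · rfl
      · exact mul_nonneg hp0 (Ex_nonneg hp0 hp1 _ fun l _ => ind_nonneg _ _)
      · exact mul_nonneg (by linarith) (Ex_nonneg hp0 hp1 _ fun l _ => ind_nonneg _ _)
    · rw [Set.disjoint_left]
      rintro ω ⟨h1, _⟩ ⟨h2, _⟩
      simp only [Set.mem_ofPred_eq] at h1 h2
      rw [h1] at h2
      exact absurd h2 (by simp)

theorem fail_of_not {p : ℝ} (hp0 : 0 < p) (hp1 : p < 1) (b : ℕ → Bool) {J D C n₀ t₀ : ℕ} (hD : 0 < D)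
    (hJ : 6 * C < J) (hDJ : 904 * (J : ℝ) ≤ D * Real.sqrt (p * (1 - p))) (ht : 0 < t₀)
    (hnot : ¬ ∃ S Z : Finset ℕ, 0 < Z.card ∧ C * S.card ≤ Z.card ∧ (∀ z ∈ Z, 0 < z) ∧ ∀ z ∈ Z, ∃ N, n₀ ≤ N ∧ 0 < N ∧
      N ≤ 2 * ((Icc 1 N).filter fun i => ∃ s ∈ S, s * lamB b i = z).card) (I M : ℕ) (hM : n₀ ≤ M) :
    Fail p J D t₀ I M (win b M (Tot (ss D J) t₀ I M)) := by
  induction I generalizing M with
  | zero => simp [Fail]
  | succ I ih =>
    simp only [Fail, Tot]
    refine ⟨?_, ?_⟩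
    · rw [win_take b M (Nat.le_add_right _ _)]
      intro hT
      exact hnot (tube_rich hp0 hp1 b hD hJ hDJ (by omega) (Nat.le_add_right M t₀) hM hT)
    · rw [win_drop]
      exact ih _ (by omega)

/-- Independent letters are almost surely rich. -/
theorem ae_rich (hp0 : 0 < p) (hp1 : p < 1) (hb : ∀ i, Measurable (b i)) (hind : iIndepFun b P)
    (hlaw : ∀ i, P {ω | b i ω = true} = ENNReal.ofReal p) :
    ∀ᵐ ω ∂P, Rich (lamB fun i => b i ω) := by
  simp only [Rich]
  rw [ae_all_iff]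
  intro C
  rw [ae_all_iff]
  intro n₀
  have hq0 : 0 < p * (1 - p) := mul_pos hp0 (by linarith)
  set J := 6 * C + 1 with hJ
  obtain ⟨D', hD'⟩ := exists_nat_ge (904 * (J : ℝ) / Real.sqrt (p * (1 - p)))
  have hs : 0 < Real.sqrt (p * (1 - p)) := Real.sqrt_pos.mpr hq0
  rw [div_le_iff₀ hs] at hD'
  have hD : 904 * (J : ℝ) ≤ ((D' + 1 : ℕ) : ℝ) * Real.sqrt (p * (1 - p)) := by
    push_cast
    nlinarith
  obtain ⟨t', ht'⟩ := exists_nat_ge (1 / (p * (1 - p)))
  have ht : 1 ≤ (((t' + 1) ^ 2 : ℕ) : ℝ) * (p * (1 - p)) := by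
    rw [div_le_iff₀ hq0] at ht'
    refine ht'.trans (mul_le_mul_of_nonneg_right ?_ hq0.le)
    have : t' ≤ (t' + 1) ^ 2 := by nlinarith
    exact_mod_cast this
  set K := ss (D' + 1) J with hK
  set θ : ℝ := 1 - (1 / 128) ^ K with hθ
  have hθ0 : 0 ≤ θ := by
    have : ((1 : ℝ) / 128) ^ K ≤ 1 := pow_le_one₀ (by norm_num) (by norm_num)
    linarith
  have hθ1 : θ < 1 := by
    have : (0 : ℝ) < (1 / 128) ^ K := by positivity
    linarith
  rw [ae_iff]
  refine le_antisymm ?_ bot_le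
  refine ge_of_tendsto' (x := atTop) (f := fun I : ℕ => ENNReal.ofReal (θ ^ I)) ?_ fun I => ?_
  · have := ENNReal.tendsto_ofReal (tendsto_pow_atTop_nhds_zero_of_lt_one hθ0 hθ1)
    simpa using this
  · calc P {ω | ¬ ∃ S Z : Finset ℕ, 0 < Z.card ∧ C * S.card ≤ Z.card ∧ (∀ z ∈ Z, 0 < z) ∧ ∀ z ∈ Z, ∃ N, n₀ ≤ N ∧
          0 < N ∧ N ≤ 2 * ((Icc 1 N).filter fun i => ∃ s ∈ S, s * lamB (fun i => b i ω) i = z).card}
        ≤ P {ω | Fail p J (D' + 1) (t' + 1) I n₀ (win (fun i => b i ω) n₀ (Tot K (t' + 1) I n₀))} := by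
          refine measure_mono fun ω hω => ?_
          exact fail_of_not hp0 hp1 (fun i => b i ω) (Nat.succ_pos _) (by omega) hD (Nat.succ_pos _) hω I n₀ le_rfl
      _ = ENNReal.ofReal (Ex p (Tot K (t' + 1) I n₀) (ind (Fail p J (D' + 1) (t' + 1) I n₀))) :=
          win_law hp0.le hp1.le hb hind hlaw _ _ _
      _ ≤ ENNReal.ofReal (θ ^ I) := ENNReal.ofReal_le_ofReal (fail_prob hp0 hp1 ht I n₀)

end Pool.Agent.Q183.Khin
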